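import Pool.Agent.H34.Toep.Defs

namespace H34.Toep

open MeasureTheory

theorem opn_nonneg {N : ℕ} (A : Matrix (Fin (N + 1)) (Fin (N + 1)) ℂ) : 0 ≤ opn A :=
  norm_nonneg _

theorem opn_ge {N : ℕ} (A : Matrix (Fin (N + 1)) (Fin (N + 1)) ℂ) (v : Fin (N + 1) → ℂ) :
    ∑ j, ‖∑ k, A j k * v k‖ ^ 2 ≤ (opn A) ^ 2 * ∑ k, ‖v k‖ ^ 2 := by
  have h := (Matrix.toEuclideanCLM (𝕜 := ℂ) A).le_opNorm (WithLp.toLp 2 v)
  have h2 := pow_le_pow_left₀ (norm_nonneg _) h 2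
  rw [mul_pow, EuclideanSpace.norm_sq_eq, EuclideanSpace.norm_sq_eq] at h2
  exact h2

theorem opn_le {N : ℕ} (A : Matrix (Fin (N + 1)) (Fin (N + 1)) ℂ) {ρ : ℝ} (hρ : 0 ≤ ρ)
    (h : ∀ v : Fin (N + 1) → ℂ, ∑ j, ‖∑ k, A j k * v k‖ ^ 2 ≤ ρ ^ 2 * ∑ k, ‖v k‖ ^ 2) :
    opn A ≤ ρ := by
  refine ContinuousLinearMap.opNorm_le_bound _ hρ fun x => ?_
  have h1 := h (WithLp.ofLp x)
  refine le_of_sq_le_sq ?_ (by positivity)
  rw [mul_pow, EuclideanSpace.norm_sq_eq, EuclideanSpace.norm_sq_eq]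
  exact h1

theorem opn_pos {N : ℕ} {A : Matrix (Fin (N + 1)) (Fin (N + 1)) ℂ} (h : A ≠ 0) : 0 < opn A := by
  refine lt_of_le_of_ne (opn_nonneg A) (fun h0 => h ?_)
  have h1 : Matrix.toEuclideanCLM (𝕜 := ℂ) A = 0 := norm_eq_zero.1 h0.symm
  exact (map_eq_zero_iff _ (Matrix.toEuclideanCLM (𝕜 := ℂ) (n := Fin (N + 1))).injective).1 h1

theorem norm_le_opn {N : ℕ} {a : ℤ → ℂ} (ha : ∀ n, a (-n) = (starRingEnd ℂ) (a n)) {n : ℤ}
    (hn : |n| ≤ N) : ‖a n‖ ≤ opn (toep N a) := by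
  have key : ∀ m : ℕ, m ≤ N → ‖a m‖ ≤ opn (toep N a) := by
    intro m hm
    have h := opn_ge (toep N a) (Pi.single 0 1)
    have h1 : ∑ k, ‖(Pi.single 0 1 : Fin (N + 1) → ℂ) k‖ ^ 2 = 1 := by
      rw [Finset.sum_eq_single 0]
      · simp
      · intro b _ hb
        simp [Pi.single_eq_of_ne hb]
      · simp
    rw [h1, mul_one] at h
    have h2 : ∀ j : Fin (N + 1), ∑ k, toep N a j k * (Pi.single 0 1 : Fin (N + 1) → ℂ) k
        = a (j : ℤ) := by
      intro j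
      rw [Finset.sum_eq_single 0]
      · simp [toep]
      · intro b _ hb
        simp [Pi.single_eq_of_ne hb]
      · simp
    have h3 : ‖a m‖ ^ 2 ≤ (opn (toep N a)) ^ 2 := by
      refine le_trans ?_ h
      have h4 := Finset.single_le_sum (f := fun j : Fin (N + 1) =>
        ‖∑ k, toep N a j k * (Pi.single 0 1 : Fin (N + 1) → ℂ) k‖ ^ 2)
        (fun i _ => by positivity) (Finset.mem_univ (⟨m, by omega⟩ : Fin (N + 1)))
      simp only [h2] at h4 ⊢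
      exact h4
    exact le_of_sq_le_sq h3 (opn_nonneg _)
  rcases le_total 0 n with h0 | h0
  · obtain ⟨m, rfl⟩ := Int.eq_ofNat_of_zero_le h0
    refine key m ?_
    rw [Nat.abs_cast] at hn
    exact_mod_cast hn
  · obtain ⟨m, hm⟩ := Int.eq_ofNat_of_zero_le (neg_nonneg.2 h0)
    have h1 : n = -(m : ℤ) := by omega
    subst h1
    rw [ha, RCLike.norm_conj]
    refine key m ?_
    rw [abs_neg, Nat.abs_cast] at hn
    exact_mod_cast hn

theorem integral_exp_int (k : ℤ) :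
    ∫ θ in (0:ℝ)..(2 * Real.pi), Complex.exp (k * θ * Complex.I)
      = if k = 0 then ((2 * Real.pi : ℝ) : ℂ) else 0 := by
  split_ifs with h
  · subst h
    simp
  · have hc : (k : ℂ) * Complex.I ≠ 0 :=
      mul_ne_zero (by exact_mod_cast h) Complex.I_ne_zero
    have h1 : ∀ θ : ℝ, Complex.exp (k * θ * Complex.I) = Complex.exp (k * Complex.I * θ) := by
      intro θ
      ring_nf
    simp only [h1]
    rw [integral_exp_mul_complex hc]
    have h2 : (k : ℂ) * Complex.I * ((2 * Real.pi : ℝ) : ℂ) = k * (2 * Real.pi * Complex.I) := by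
      push_cast
      ring
    rw [h2, Complex.exp_int_mul_two_pi_mul_I]
    simp

/-- Fourier coefficients of a trigonometric polynomial. -/
theorem coef_trig (S : Finset ℤ) (b : ℤ → ℂ) (n : ℤ) :
    coef (fun θ => ∑ m ∈ S, b m * Complex.exp (m * θ * Complex.I)) n
      = if n ∈ S then b n else 0 := by
  unfold coef
  have h1 : ∀ θ : ℝ, (∑ m ∈ S, b m * Complex.exp (m * θ * Complex.I)) *
      Complex.exp (-(n * θ * Complex.I))
      = ∑ m ∈ S, b m * Complex.exp (((m - n : ℤ) : ℂ) * θ * Complex.I) := by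
    intro θ
    rw [Finset.sum_mul]
    refine Finset.sum_congr rfl fun m _ => ?_
    rw [mul_assoc, ← Complex.exp_add]
    push_cast
    ring_nf
  simp only [h1]
  rw [intervalIntegral.integral_finsetSum]
  · simp only [intervalIntegral.integral_const_mul, integral_exp_int]
    have h2 : ∀ m ∈ S, b m * (if m - n = 0 then ((2 * Real.pi : ℝ) : ℂ) else 0)
        = if m = n then b m * ((2 * Real.pi : ℝ) : ℂ) else 0 := by
      intro m _
      by_cases h : m = n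
      · subst h; simp
      · have h' : m - n ≠ 0 := sub_ne_zero.2 h
        simp [h, h']
    rw [Finset.sum_congr rfl h2, Finset.sum_ite_eq']
    split_ifs with h
    · have hpi : (Real.pi : ℂ) ≠ 0 := by exact_mod_cast Real.pi_ne_zero
      push_cast
      field_simp
    · simp
  · intro m _
    apply Continuous.intervalIntegrable
    fun_prop

theorem induces_trig (N : ℕ) (a : ℤ → ℂ) :
    ∃ f : ℝ → ℂ, Induces N a f (∑ m ∈ Finset.Icc (-(N : ℤ)) N, ‖a m‖) := by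
  refine ⟨fun θ => ∑ m ∈ Finset.Icc (-(N : ℤ)) N, a m * Complex.exp (m * θ * Complex.I), ?_, ?_, ?_⟩
  · exact Continuous.measurable (by fun_prop)
  · refine Filter.Eventually.of_forall fun θ => ?_
    refine (norm_sum_le _ _).trans (Finset.sum_le_sum fun m _ => ?_)
    rw [norm_mul]
    have h1 : (m : ℂ) * θ * Complex.I = ((m * θ : ℝ) : ℂ) * Complex.I := by push_cast; ring
    rw [h1, Complex.norm_exp_ofReal_mul_I, mul_one]
  · intro n hn
    rw [coef_trig, if_pos]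
    rw [Finset.mem_Icc]
    exact abs_le.1 hn

theorem cA_nonempty (N : ℕ) (a : ℤ → ℂ) :
    {r : ℝ | 0 ≤ r ∧ ∃ f : ℝ → ℂ, Induces N a f r}.Nonempty := by
  obtain ⟨f, hf⟩ := induces_trig N a
  exact ⟨_, Finset.sum_nonneg fun _ _ => norm_nonneg _, f, hf⟩

theorem cA_nonneg (N : ℕ) (a : ℤ → ℂ) : 0 ≤ cA N a :=
  Real.sInf_nonneg fun _ h => h.1

theorem cA_le {N : ℕ} {a : ℤ → ℂ} (ha : ∀ n, a (-n) = (starRingEnd ℂ) (a n)) :
    cA N a ≤ (2 * N + 1) * opn (toep N a) := by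
  obtain ⟨f, hf⟩ := induces_trig N a
  have hmem : (∑ m ∈ Finset.Icc (-(N : ℤ)) N, ‖a m‖) ∈
      {r : ℝ | 0 ≤ r ∧ ∃ f : ℝ → ℂ, Induces N a f r} :=
    ⟨Finset.sum_nonneg fun _ _ => norm_nonneg _, f, hf⟩
  have hbb : BddBelow {r : ℝ | 0 ≤ r ∧ ∃ f : ℝ → ℂ, Induces N a f r} := ⟨0, fun r hr => hr.1⟩
  refine (csInf_le hbb hmem).trans ?_
  have h1 : ∑ m ∈ Finset.Icc (-(N : ℤ)) N, ‖a m‖
      ≤ ∑ _m ∈ Finset.Icc (-(N : ℤ)) N, opn (toep N a) :=
    Finset.sum_le_sum fun m hm => norm_le_opn ha (abs_le.2 (Finset.mem_Icc.1 hm))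
  refine h1.trans (le_of_eq ?_)
  rw [Finset.sum_const, Int.card_Icc, nsmul_eq_mul]
  congr 1
  have : ((N : ℤ) + 1 - -(N : ℤ)).toNat = 2 * N + 1 := by omega
  rw [this]
  push_cast
  ring

theorem bdd (N : ℕ) : BddAbove {x : ℝ | ∃ a : ℤ → ℂ, (∀ n, a (-n) = (starRingEnd ℂ) (a n)) ∧
    toep N a ≠ 0 ∧ x = cA N a / opn (toep N a)} := by
  refine ⟨2 * N + 1, ?_⟩
  rintro x ⟨a, ha, h0, rfl⟩
  rw [div_le_iff₀ (opn_pos h0)]
  exact cA_le ha

theorem ratio_le_cN {N : ℕ} {a : ℤ → ℂ} (ha : ∀ n, a (-n) = (starRingEnd ℂ) (a n))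
    (h0 : toep N a ≠ 0) : cA N a / opn (toep N a) ≤ cN N :=
  le_csSup (bdd N) ⟨a, ha, h0, rfl⟩

/-- A contraction with `c_A ≥ x > 0` gives `c_N ≥ x`. -/
theorem le_cN {N : ℕ} {a : ℤ → ℂ} (ha : ∀ n, a (-n) = (starRingEnd ℂ) (a n))
    (h0 : toep N a ≠ 0) {x : ℝ} (h1 : opn (toep N a) ≤ 1) (hx : x ≤ cA N a) : x ≤ cN N := by
  refine (hx.trans ?_).trans (ratio_le_cN ha h0)
  rw [le_div_iff₀ (opn_pos h0)]
  exact mul_le_of_le_one_right (cA_nonneg N a) h1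

/-- Duality: lower bound of the norm of an inducing function by a trigonometric polynomial. -/
theorem dual_bound {N : ℕ} {a : ℤ → ℂ} {f : ℝ → ℂ} {r : ℝ} (hf : Induces N a f r)
    (S : Finset ℤ) (hS : ∀ n ∈ S, |n| ≤ N) (τ : ℤ → ℂ) :
    ‖∑ n ∈ S, τ n * a n‖ ≤ r * ((1 / (2 * Real.pi)) *
      ∫ θ in (0:ℝ)..(2 * Real.pi), ‖∑ n ∈ S, τ n * Complex.exp (-(n * θ * Complex.I))‖) := by
  obtain ⟨hm, hb, hc⟩ := hf
  have hpi : (0:ℝ) ≤ 2 * Real.pi := by positivity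
  have hint : ∀ n : ℤ, IntervalIntegrable (fun θ : ℝ => f θ * Complex.exp (-(n * θ * Complex.I)))
      volume 0 (2 * Real.pi) := by
    intro n
    rw [intervalIntegrable_iff_integrableOn_Ioc_of_le hpi]
    refine Integrable.bdd_mul (c := r) ?_ hm.aestronglyMeasurable hb
    have : IntervalIntegrable (fun θ : ℝ => Complex.exp (-(n * θ * Complex.I))) volume 0
        (2 * Real.pi) := Continuous.intervalIntegrable (by fun_prop) _ _
    exact (intervalIntegrable_iff_integrableOn_Ioc_of_le hpi).1 this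
  have h1 : ∑ n ∈ S, τ n * a n = ((1 / (2 * Real.pi) : ℝ) : ℂ) *
      ∫ θ in (0:ℝ)..(2 * Real.pi), f θ * ∑ n ∈ S, τ n * Complex.exp (-(n * θ * Complex.I)) := by
    have h2 : ∀ θ : ℝ, f θ * ∑ n ∈ S, τ n * Complex.exp (-(n * θ * Complex.I))
        = ∑ n ∈ S, τ n * (f θ * Complex.exp (-(n * θ * Complex.I))) := by
      intro θ
      rw [Finset.mul_sum]
      exact Finset.sum_congr rfl fun n _ => by ring
    simp only [h2]
    rw [intervalIntegral.integral_finsetSum fun n _ => (hint n).const_mul (τ n), Finset.mul_sum]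
    refine Finset.sum_congr rfl fun n hn => ?_
    rw [intervalIntegral.integral_const_mul, ← hc n (hS n hn)]
    unfold coef
    ring
  rw [h1, norm_mul]
  have h3 : ‖((1 / (2 * Real.pi) : ℝ) : ℂ)‖ = 1 / (2 * Real.pi) := by
    rw [Complex.norm_real, Real.norm_of_nonneg (by positivity)]
  rw [h3]
  have h4 : ‖∫ θ in (0:ℝ)..(2 * Real.pi), f θ * ∑ n ∈ S, τ n * Complex.exp (-(n * θ * Complex.I))‖
      ≤ ∫ θ in (0:ℝ)..(2 * Real.pi), r * ‖∑ n ∈ S, τ n * Complex.exp (-(n * θ * Complex.I))‖ := by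
    refine intervalIntegral.norm_integral_le_of_norm_le hpi ?_ ?_
    · rw [← ae_restrict_iff' measurableSet_Ioc]
      filter_upwards [hb] with θ hθ
      rw [norm_mul]
      exact mul_le_mul_of_nonneg_right hθ (norm_nonneg _)
    · apply Continuous.intervalIntegrable
      fun_prop
  rw [intervalIntegral.integral_const_mul] at h4
  calc 1 / (2 * Real.pi) * ‖∫ θ in (0:ℝ)..(2 * Real.pi), f θ *
        ∑ n ∈ S, τ n * Complex.exp (-(n * θ * Complex.I))‖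
      ≤ 1 / (2 * Real.pi) * (r * ∫ θ in (0:ℝ)..(2 * Real.pi),
        ‖∑ n ∈ S, τ n * Complex.exp (-(n * θ * Complex.I))‖) :=
        mul_le_mul_of_nonneg_left h4 (by positivity)
    _ = _ := by ring

theorem cA_ge {N : ℕ} {a : ℤ → ℂ} (S : Finset ℤ) (hS : ∀ n ∈ S, |n| ≤ N) (τ : ℤ → ℂ) {I x : ℝ}
    (hI : (1 / (2 * Real.pi)) *
      ∫ θ in (0:ℝ)..(2 * Real.pi), ‖∑ n ∈ S, τ n * Complex.exp (-(n * θ * Complex.I))‖ ≤ I)
    (hx : x * I ≤ ‖∑ n ∈ S, τ n * a n‖) (hI0 : 0 < I) : x ≤ cA N a := by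
  refine le_csInf (cA_nonempty N a) ?_
  rintro r ⟨hr, f, hf⟩
  have h1 := dual_bound hf S hS τ
  have h2 := hx.trans (h1.trans (mul_le_mul_of_nonneg_left hI hr))
  exact le_of_mul_le_mul_right h2 hI0

end H34.Toep
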