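import Mathlib

/-!
# Toeplitz mini-max constants (MP_4845ad_an): definitions

The circle is parametrised by `θ ∈ (0, 2π]`, with the normalised measure `dθ / (2π)`.
-/

namespace H34.Toep

open MeasureTheory

/-- The `n`-th Fourier coefficient of `f`. -/
noncomputable def coef (f : ℝ → ℂ) (n : ℤ) : ℂ :=
  (1 / (2 * Real.pi) : ℝ) * ∫ θ in (0:ℝ)..(2 * Real.pi), f θ * Complex.exp (-(n * θ * Complex.I))

/-- The Toeplitz matrix `(a_{j-k})`, `0 ≤ j, k ≤ N`. -/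
def toep (N : ℕ) (a : ℤ → ℂ) : Matrix (Fin (N + 1)) (Fin (N + 1)) ℂ :=
  Matrix.of fun j k => a ((j : ℤ) - (k : ℤ))

/-- The spectral norm of a square matrix (operator norm for the Euclidean norm). -/
noncomputable def opn {N : ℕ} (A : Matrix (Fin (N + 1)) (Fin (N + 1)) ℂ) : ℝ :=
  ‖Matrix.toEuclideanCLM (𝕜 := ℂ) A‖

/-- `f` is measurable, essentially bounded by `r` on the circle, and its Fourier coefficients of
indices `-N, ..., N` are those of `a`. -/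
def Induces (N : ℕ) (a : ℤ → ℂ) (f : ℝ → ℂ) (r : ℝ) : Prop :=
  Measurable f ∧ (∀ᵐ θ ∂(volume.restrict (Set.Ioc 0 (2 * Real.pi))), ‖f θ‖ ≤ r) ∧
    ∀ n : ℤ, |n| ≤ N → coef f n = a n

/-- `c_A`: the least `L^∞` norm of a function inducing the Toeplitz matrix `A = toep N a`. -/
noncomputable def cA (N : ℕ) (a : ℤ → ℂ) : ℝ :=
  sInf {r : ℝ | 0 ≤ r ∧ ∃ f : ℝ → ℂ, Induces N a f r}

/-- `c_N`: the supremum of `c_A / ‖A‖` over the nonzero self-adjoint Toeplitz matrices `A` of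
size `N + 1`. -/
noncomputable def cN (N : ℕ) : ℝ :=
  sSup {x : ℝ | ∃ a : ℤ → ℂ, (∀ n, a (-n) = (starRingEnd ℂ) (a n)) ∧ toep N a ≠ 0 ∧
    x = cA N a / opn (toep N a)}

end H34.Toep
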