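import Pool.Agent.H34.Toep.Sine

namespace H34.Toep

open MeasureTheory

/-- Coefficients interpolating linearly between `a` and `1`. -/
noncomputable def cc (a : ℝ) (N : ℕ) (k : ℕ) : ℝ := a + (1 - a) / ((N : ℝ) + 1) * ((k : ℝ) + 1)

theorem cc_id (a : ℝ) (N : ℕ) (θ : ℝ) :
    (2 - 2 * Real.cos θ) * sinP N (cc a N) θ
      = Real.sin θ * (a - Real.cos (((N : ℝ) + 1) * θ))
        + Real.sin (((N : ℝ) + 1) * θ) * ((1 - a) / ((N : ℝ) + 1) - (1 - Real.cos θ)) := by
  have hN : (N : ℝ) + 1 ≠ 0 := by positivity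
  have h1 : sinP N (cc a N) θ = a * ∑ k ∈ Finset.range N, Real.sin (((k : ℝ) + 1) * θ)
      + (1 - a) / ((N : ℝ) + 1) *
        ∑ k ∈ Finset.range N, ((k : ℝ) + 1) * Real.sin (((k : ℝ) + 1) * θ) := by
    unfold sinP cc
    rw [Finset.mul_sum, Finset.mul_sum, ← Finset.sum_add_distrib]
    exact Finset.sum_congr rfl fun k _ => by ring
  have h2 := sin_id1 N θ
  have h3 := sin_id2 N θ
  have h4 : Real.sin (N * θ) = Real.sin (((N : ℝ) + 1) * θ) * Real.cos θ
      - Real.cos (((N : ℝ) + 1) * θ) * Real.sin θ := by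
    rw [← Real.sin_sub]
    congr 1
    ring
  rw [h1, mul_add]
  have h5 : (2 - 2 * Real.cos θ) * (a * ∑ k ∈ Finset.range N, Real.sin (((k : ℝ) + 1) * θ))
      = a * ((2 - 2 * Real.cos θ) * ∑ k ∈ Finset.range N, Real.sin (((k : ℝ) + 1) * θ)) := by ring
  have h6 : (2 - 2 * Real.cos θ) * ((1 - a) / ((N : ℝ) + 1) *
        ∑ k ∈ Finset.range N, ((k : ℝ) + 1) * Real.sin (((k : ℝ) + 1) * θ))
      = (1 - a) / ((N : ℝ) + 1) * ((2 - 2 * Real.cos θ) *
        ∑ k ∈ Finset.range N, ((k : ℝ) + 1) * Real.sin (((k : ℝ) + 1) * θ)) := by ring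
  rw [h5, h6, h2, h3, h4]
  field_simp
  ring

theorem cot_low {y : ℝ} (h0 : 0 < y) (h1 : y ≤ Real.pi / 2) :
    (1 / y - 1) * Real.sin y ≤ Real.cos y := by
  have hs : 0 ≤ Real.sin y := Real.sin_nonneg_of_nonneg_of_le_pi h0.le (by linarith [Real.pi_pos])
  have hc : 0 ≤ Real.cos y := Real.cos_nonneg_of_neg_pi_div_two_le_of_le (by linarith) h1
  rcases le_or_gt 1 y with h | h
  · have h2 : 1 / y ≤ 1 := by rw [div_le_one h0]; exact h
    have : (1 / y - 1) * Real.sin y ≤ 0 := mul_nonpos_of_nonpos_of_nonneg (by linarith) hs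
    linarith
  · have h2 : Real.sin y ≤ y := Real.sin_le h0.le
    have h3 : 1 - y ^ 2 / 2 ≤ Real.cos y := Real.one_sub_sq_div_two_le_cos
    have h4 : 1 / y - 1 = (1 - y) / y := by field_simp
    rw [h4, div_mul_eq_mul_div, div_le_iff₀ h0]
    nlinarith [mul_le_mul_of_nonneg_left h2 (by linarith : (0:ℝ) ≤ 1 - y)]

/-- Lower bound of the polynomial at a node. -/
theorem node_low {a : ℝ} (ha : 0 ≤ a) (N : ℕ) {l : ℕ} (hl : l < N + 1) :
    (1 + a) / 2 * (1 / (node N l / 2) + 1 / (Real.pi - node N l / 2) - 2)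
      ≤ |sinP N (cc a N) (node N l)| := by
  have hN : (0:ℝ) < (N : ℝ) + 1 := by positivity
  have hpi := Real.pi_pos
  set y : ℝ := node N l / 2 with hy
  have hy0 : 0 < y := by
    rw [hy]; unfold node; positivity
  have hy1 : y < Real.pi := by
    rw [hy]; unfold node
    rw [div_div, div_lt_iff₀ (by positivity)]
    have : (l : ℝ) + 1 ≤ N + 1 := by exact_mod_cast hl
    nlinarith
  have h1 := cc_id a N (node N l)
  have h2 : ((N : ℝ) + 1) * node N l = ((2 * l + 1 : ℕ) : ℤ) * Real.pi := by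
    unfold node
    push_cast
    field_simp
  have h3 : Real.sin (((N : ℝ) + 1) * node N l) = 0 := by
    rw [h2]; exact Real.sin_int_mul_pi _
  have h4 : Real.cos (((N : ℝ) + 1) * node N l) = -1 := by
    rw [h2]
    have : (((2 * l + 1 : ℕ) : ℤ) : ℝ) * Real.pi = l * (2 * Real.pi) + Real.pi := by
      push_cast; ring
    rw [this, Real.cos_add_pi, Real.cos_nat_mul_two_pi]
  rw [h3, h4, zero_mul, add_zero] at h1
  have h5 : node N l = 2 * y := by rw [hy]; ring
  rw [h5] at h1 ⊢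
  rw [Real.cos_two_mul, Real.sin_two_mul] at h1
  have hs : 0 < Real.sin y := Real.sin_pos_of_pos_of_lt_pi hy0 hy1
  have h6 : Real.sin y ^ 2 = 1 - Real.cos y ^ 2 := by
    have := Real.sin_sq_add_cos_sq y; linarith
  have h7 : 2 * Real.sin y * sinP N (cc a N) (2 * y) = (1 + a) * Real.cos y := by
    have h8 : 2 * Real.sin y * (2 * Real.sin y * sinP N (cc a N) (2 * y))
        = 2 * Real.sin y * ((1 + a) * Real.cos y) := by
      have : (2 - 2 * (2 * Real.cos y ^ 2 - 1)) = 4 * Real.sin y ^ 2 := by rw [h6]; ring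
      rw [this] at h1
      linear_combination h1
    exact mul_left_cancel₀ (by positivity) h8
  have h9 : |sinP N (cc a N) (2 * y)| = (1 + a) * |Real.cos y| / (2 * Real.sin y) := by
    rw [eq_div_iff (by positivity), ← abs_of_pos (by positivity : 0 < 2 * Real.sin y), ← abs_mul,
      mul_comm (sinP N (cc a N) (2 * y)), h7, abs_mul, abs_of_nonneg (by linarith : 0 ≤ 1 + a)]
  rw [h9]
  have key : (1 / y + 1 / (Real.pi - y) - 2) * Real.sin y ≤ |Real.cos y| := by
    have hpi3 := Real.pi_gt_three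
    rcases le_total y (Real.pi / 2) with h | h
    · have h10 := cot_low hy0 h
      have h11 : 1 / (Real.pi - y) ≤ 1 := by
        rw [div_le_one (by linarith)]; linarith
      have h12 := le_abs_self (Real.cos y)
      nlinarith
    · have h10 := cot_low (y := Real.pi - y) (by linarith) (by linarith)
      rw [Real.sin_pi_sub, Real.cos_pi_sub] at h10
      have h11 : 1 / y ≤ 1 := by
        rw [div_le_one (by linarith)]; linarith
      have h12 := neg_le_abs (Real.cos y)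
      nlinarith
  rw [le_div_iff₀ (by positivity)]
  have h13 : 0 ≤ 1 + a := by linarith
  nlinarith [mul_le_mul_of_nonneg_left key h13]

theorem harm_odd (n : ℕ) : Real.log ((n : ℝ) + 1) / 2 ≤ ∑ l ∈ Finset.range n, 1 / (2 * (l : ℝ) + 1) := by
  have h1 := log_add_one_le_harmonic n
  have h2 : ((harmonic n : ℚ) : ℝ) = ∑ l ∈ Finset.range n, 1 / ((l : ℝ) + 1) := by
    unfold harmonic
    push_cast
    exact Finset.sum_congr rfl fun l _ => by rw [one_div]
  rw [h2] at h1
  push_cast at h1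
  calc Real.log ((n : ℝ) + 1) / 2 ≤ (∑ l ∈ Finset.range n, 1 / ((l : ℝ) + 1)) / 2 := by linarith
    _ = ∑ l ∈ Finset.range n, 1 / ((l : ℝ) + 1) / 2 := by rw [Finset.sum_div]
    _ ≤ _ := Finset.sum_le_sum fun l _ => by
      rw [div_div]
      apply one_div_le_one_div_of_le (by positivity)
      have : (0:ℝ) ≤ l := by positivity
      linarith

theorem nodes_low {a : ℝ} (ha : 0 ≤ a) (N : ℕ) :
    (1 + a) * (Real.log ((N : ℝ) + 1) / Real.pi - 1) ≤
      (1 / ((N : ℝ) + 1)) * ∑ l ∈ Finset.range (N + 1), |sinP N (cc a N) (node N l)| := by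
  have hN : (0:ℝ) < (N : ℝ) + 1 := by positivity
  have hpi := Real.pi_pos
  have h1 : ∑ l ∈ Finset.range (N + 1), (1 + a) / 2 *
      (1 / (node N l / 2) + 1 / (Real.pi - node N l / 2) - 2)
      ≤ ∑ l ∈ Finset.range (N + 1), |sinP N (cc a N) (node N l)| :=
    Finset.sum_le_sum fun l hl => node_low ha N (Finset.mem_range.1 hl)
  have h2 : ∑ l ∈ Finset.range (N + 1), 1 / (Real.pi - node N l / 2)
      = ∑ l ∈ Finset.range (N + 1), 1 / (node N l / 2) := by
    rw [← Finset.sum_range_reflect (fun l => 1 / (Real.pi - node N l / 2))]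
    refine Finset.sum_congr rfl fun l hl => ?_
    have hl' : l ≤ N := Nat.lt_succ_iff.1 (Finset.mem_range.1 hl)
    congr 1
    unfold node
    have : ((N + 1 - 1 - l : ℕ) : ℝ) = N - l := by
      rw [Nat.add_sub_cancel, Nat.cast_sub hl']
    rw [this]
    field_simp
    ring
  have h3 : ∑ l ∈ Finset.range (N + 1), 1 / (node N l / 2)
      = (2 * ((N : ℝ) + 1) / Real.pi) * ∑ l ∈ Finset.range (N + 1), 1 / (2 * (l : ℝ) + 1) := by
    rw [Finset.mul_sum]
    refine Finset.sum_congr rfl fun l _ => ?_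
    unfold node
    field_simp
  have h4 := harm_odd (N + 1)
  rw [← Finset.mul_sum, Finset.sum_sub_distrib, Finset.sum_add_distrib, h2, h3, Finset.sum_const,
    Finset.card_range, nsmul_eq_mul] at h1
  have h5 : Real.log ((N : ℝ) + 1) ≤ Real.log (((N + 1 : ℕ) : ℝ) + 1) :=
    Real.log_le_log hN (by push_cast; linarith)
  rw [one_div, ← div_eq_inv_mul, le_div_iff₀ hN]
  refine le_trans ?_ h1
  have h6 : Real.log ((N : ℝ) + 1) / 2 ≤ ∑ l ∈ Finset.range (N + 1), 1 / (2 * (l : ℝ) + 1) := by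
    linarith
  have h7 : (2 * ((N : ℝ) + 1) / Real.pi) * (Real.log ((N : ℝ) + 1) / 2)
      ≤ (2 * ((N : ℝ) + 1) / Real.pi) * ∑ l ∈ Finset.range (N + 1), 1 / (2 * (l : ℝ) + 1) :=
    mul_le_mul_of_nonneg_left h6 (by positivity)
  have h8 : (1 + a) * (Real.log ((N : ℝ) + 1) / Real.pi - 1) * ((N : ℝ) + 1)
      = (1 + a) / 2 * ((2 * ((N : ℝ) + 1) / Real.pi) * (Real.log ((N : ℝ) + 1) / 2) +
        (2 * ((N : ℝ) + 1) / Real.pi) * (Real.log ((N : ℝ) + 1) / 2) - ((N : ℝ) + 1) * 2) := by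
    field_simp
    ring
  rw [h8]
  push_cast
  refine mul_le_mul_of_nonneg_left ?_ (by linarith)
  linarith

end H34.Toep
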