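import Pool.Agent.H34.Toep.Upper

namespace H34.Toep

open MeasureTheory intervalIntegral

theorem sinP_cont (N : ℕ) (c : ℕ → ℝ) : Continuous (sinP N c) := by
  unfold sinP
  fun_prop

theorem sinP_refl (N : ℕ) (c : ℕ → ℝ) (θ : ℝ) : sinP N c (2 * Real.pi - θ) = -sinP N c θ := by
  unfold sinP
  rw [← Finset.sum_neg_distrib]
  refine Finset.sum_congr rfl fun k _ => ?_
  have h1 : ((k : ℝ) + 1) * (2 * Real.pi - θ)
      = ((k + 1 : ℕ) : ℝ) * (2 * Real.pi) - ((k : ℝ) + 1) * θ := by push_cast; ring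
  rw [h1, Real.sin_nat_mul_two_pi_sub]
  ring

theorem int_two (N : ℕ) (c : ℕ → ℝ) :
    ∫ θ in (0:ℝ)..(2 * Real.pi), |sinP N c θ| = 2 * ∫ θ in (0:ℝ)..Real.pi, |sinP N c θ| := by
  have hc : Continuous fun θ => |sinP N c θ| := (sinP_cont N c).abs
  rw [← integral_add_adjacent_intervals (hc.intervalIntegrable 0 Real.pi)
    (hc.intervalIntegrable Real.pi (2 * Real.pi)), two_mul (∫ θ in (0:ℝ)..Real.pi, |sinP N c θ|)]
  congr 1
  have h1 := intervalIntegral.integral_comp_sub_left (a := 0) (b := Real.pi)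
    (fun θ => |sinP N c θ|) (2 * Real.pi)
  have e1 : 2 * Real.pi - Real.pi = Real.pi := by ring
  have e2 : 2 * Real.pi - 0 = 2 * Real.pi := by ring
  rw [e1, e2] at h1
  rw [← h1]
  refine intervalIntegral.integral_congr fun θ _ => ?_
  simp only [sinP_refl, abs_neg]

theorem int_inv_sq {δ : ℝ} (h : 0 < δ) (h' : δ ≤ Real.pi) :
    ∫ θ in δ..Real.pi, 1 / θ ^ 2 ≤ 1 / δ := by
  have hpi := Real.pi_pos
  have h1 : ∫ θ in δ..Real.pi, 1 / θ ^ 2 = ∫ θ in δ..Real.pi, θ ^ (-2 : ℤ) := by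
    refine intervalIntegral.integral_congr fun θ _ => ?_
    simp [zpow_neg]
  rw [h1, integral_zpow]
  · have e : (-2 : ℤ) + 1 = -1 := by norm_num
    rw [e, zpow_neg_one, zpow_neg_one]
    push_cast
    have h2 : 0 < Real.pi⁻¹ := by positivity
    have e3 : (-2 : ℝ) + 1 = -1 := by norm_num
    rw [e3, div_neg, div_one, one_div]
    linarith
  · right
    refine ⟨by norm_num, ?_⟩
    rw [Set.uIcc_of_le h']
    intro h3
    exact absurd h3.1 (not_le.2 h)

theorem int_up {a : ℝ} (h0 : 0 ≤ a) (h1 : a ≤ 1) (N : ℕ) :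
    ∫ θ in (0:ℝ)..(2 * Real.pi), |sinP N (cc a N) θ| ≤
      2 * (Mp a / (2 * Real.pi) * Real.log ((N : ℝ) + 1) + (Mp a / (2 * Real.pi) + 20)) := by
  have hpi := Real.pi_gt_three
  have hpi' := Real.pi_lt_d2
  have hN : (0:ℝ) < (N : ℝ) + 1 := by positivity
  have hN0 : (0:ℝ) ≤ N := by positivity
  rw [int_two]
  refine mul_le_mul_of_nonneg_left ?_ (by norm_num)
  have hc : Continuous fun θ => |sinP N (cc a N) θ| := (sinP_cont N _).abs
  set δ : ℝ := 1 / ((N : ℝ) + 1) with hδ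
  have hδ0 : 0 < δ := by positivity
  have hδ1 : δ ≤ 1 := by
    rw [hδ, div_le_one hN]; linarith
  rw [← integral_add_adjacent_intervals (hc.intervalIntegrable 0 δ)
    (hc.intervalIntegrable δ Real.pi)]
  have p1 : ∫ θ in (0:ℝ)..δ, |sinP N (cc a N) θ| ≤ 1 := by
    have h2 : ∫ θ in (0:ℝ)..δ, |sinP N (cc a N) θ| ≤ ∫ _θ in (0:ℝ)..δ, (N : ℝ) :=
      integral_mono_on hδ0.le (hc.intervalIntegrable 0 δ) (by simp)
        fun θ _ => cc_bound h0 h1 N θ
    rw [intervalIntegral.integral_const, smul_eq_mul, sub_zero] at h2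
    refine h2.trans ?_
    rw [hδ, one_div, ← div_eq_inv_mul, div_le_one hN]
    linarith
  have hδpi : δ ≤ Real.pi := by linarith
  have i1 : IntervalIntegrable (fun θ => ((N : ℝ) + 1) * gg a (((N : ℝ) + 1) * θ)) volume δ Real.pi := by
    apply ContinuousOn.intervalIntegrable
    rw [Set.uIcc_of_le hδpi]
    unfold gg
    refine ContinuousOn.mul continuousOn_const (ContinuousOn.div (by fun_prop) (by fun_prop)
      fun x hx => ?_)
    have : 0 < x := hδ0.trans_le hx.1
    positivity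
  have i2 : IntervalIntegrable (fun θ : ℝ => 3 / ((N : ℝ) + 1) * (1 / θ ^ 2)) volume δ Real.pi := by
    apply ContinuousOn.intervalIntegrable
    rw [Set.uIcc_of_le hδpi]
    refine ContinuousOn.mul continuousOn_const (ContinuousOn.div (by fun_prop) (by fun_prop)
      fun x hx => ?_)
    have : 0 < x := hδ0.trans_le hx.1
    positivity
  have i3 : IntervalIntegrable (fun _ : ℝ => (1:ℝ) / 2) volume δ Real.pi := by simp
  have p2 : ∫ θ in δ..Real.pi, |sinP N (cc a N) θ| ≤
      ∫ θ in δ..Real.pi, (((N : ℝ) + 1) * gg a (((N : ℝ) + 1) * θ)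
        + 3 / ((N : ℝ) + 1) * (1 / θ ^ 2) + 1 / 2) :=
    integral_mono_on hδpi (hc.intervalIntegrable δ Real.pi) ((i1.add i2).add i3)
      fun θ hθ => point_up h0 h1 N (hδ0.trans_le hθ.1) hθ.2
  rw [intervalIntegral.integral_add (i1.add i2) i3, intervalIntegral.integral_add i1 i2,
    intervalIntegral.integral_const_mul, intervalIntegral.integral_const_mul,
    intervalIntegral.integral_const, smul_eq_mul] at p2
  have p3 : ((N : ℝ) + 1) * ∫ θ in δ..Real.pi, gg a (((N : ℝ) + 1) * θ)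
      ≤ 4 * Real.pi + Mp a / (2 * Real.pi) * (1 + Real.log ((N : ℝ) + 1)) := by
    rw [intervalIntegral.mul_integral_comp_mul_left (f := gg a) (c := (N : ℝ) + 1)]
    have e1 : ((N : ℝ) + 1) * δ = 1 := by rw [hδ]; field_simp
    rw [e1]
    have h2 := gg_sum h0 h1 N
    have h3 : ∫ x in (1:ℝ)..((N : ℝ) + 1) * Real.pi, gg a x
        ≤ ∫ x in (1:ℝ)..(2 * Real.pi * ((N : ℝ) + 1)), gg a x := by
      refine integral_mono_interval le_rfl (by nlinarith) (by nlinarith) ?_
        (gg_int a one_pos (by nlinarith))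
      refine (ae_restrict_iff' measurableSet_Ioc).2 (Filter.Eventually.of_forall fun x hx => ?_)
      exact gg_nonneg a (by linarith [hx.1])
    refine h3.trans (h2.trans ?_)
    have h4 : ∑ k ∈ Finset.range N, 1 / ((k : ℝ) + 1) ≤ 1 + Real.log ((N : ℝ) + 1) := by
      have h5 := harmonic_le_one_add_log N
      have h6 : ((harmonic N : ℚ) : ℝ) = ∑ k ∈ Finset.range N, 1 / ((k : ℝ) + 1) := by
        unfold harmonic
        push_cast
        exact Finset.sum_congr rfl fun l _ => by rw [one_div]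
      rw [h6] at h5
      refine h5.trans ?_
      rcases Nat.eq_zero_or_pos N with h7 | h7
      · subst h7; simp
      · have : Real.log N ≤ Real.log ((N : ℝ) + 1) :=
          Real.log_le_log (by exact_mod_cast h7) (by linarith)
        linarith
    have h5 : 0 ≤ Mp a / (2 * Real.pi) := div_nonneg (Mp_nonneg a) (by positivity)
    have := mul_le_mul_of_nonneg_left h4 h5
    linarith
  have p4 : 3 / ((N : ℝ) + 1) * ∫ θ in δ..Real.pi, 1 / θ ^ 2 ≤ 3 := by
    have h2 := int_inv_sq hδ0 hδpi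
    have h3 : 1 / δ = (N : ℝ) + 1 := by rw [hδ]; field_simp
    rw [h3] at h2
    have h4 : 3 / ((N : ℝ) + 1) * ∫ θ in δ..Real.pi, 1 / θ ^ 2 ≤ 3 / ((N : ℝ) + 1) * ((N : ℝ) + 1) :=
      mul_le_mul_of_nonneg_left h2 (by positivity)
    refine h4.trans (le_of_eq ?_)
    field_simp
  nlinarith

/-- For every `x < (1 + a) / m`, `m` the mean of `|a - cos|`, eventually `c_N ≥ x`. -/
theorem eventually_ge {a x : ℝ} (h0 : 0 ≤ a) (h1 : a ≤ 1)
    (hx : x * (Mp a / (2 * Real.pi)) < 1 + a) : ∃ N0 : ℕ, ∀ N ≥ N0, x ≤ cN N := by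
  set m : ℝ := Mp a / (2 * Real.pi) with hm
  have hpi := Real.pi_pos
  have hm0 : 0 ≤ m := div_nonneg (Mp_nonneg a) (by positivity)
  set B : ℝ := (x * (m + 20) + (1 + a) * Real.pi) / (1 + a - x * m) with hB
  have h2 : Filter.Tendsto (fun N : ℕ => Real.log ((N : ℝ) + 1)) Filter.atTop Filter.atTop := by
    refine Real.tendsto_log_atTop.comp ?_
    exact Filter.tendsto_atTop_add_const_right _ _ tendsto_natCast_atTop_atTop
  obtain ⟨N0, hN0⟩ := Filter.eventually_atTop.1 (h2.eventually_ge_atTop B)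
  refine ⟨N0, fun N hN => ?_⟩
  have h3 := hN0 N hN
  have hlog : 0 ≤ Real.log ((N : ℝ) + 1) := Real.log_nonneg (by
    have : (0:ℝ) ≤ N := by positivity
    linarith)
  have h4 := int_up h0 h1 N
  refine cN_ge_sin N (cc a N) (I := (1 / Real.pi) * (m * Real.log ((N : ℝ) + 1) + (m + 20))) ?_ ?_ ?_
  · have h5 : (1 / (2 * Real.pi)) * ∫ θ in (0:ℝ)..(2 * Real.pi), |sinP N (cc a N) θ|
        ≤ (1 / (2 * Real.pi)) * (2 * (m * Real.log ((N : ℝ) + 1) + (m + 20))) :=
      mul_le_mul_of_nonneg_left h4 (by positivity)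
    refine h5.trans (le_of_eq ?_)
    field_simp
  · positivity
  · refine le_trans ?_ (nodes_low h0 N)
    have h6 : 0 < 1 + a - x * m := by linarith
    rw [hB, div_le_iff₀ h6] at h3
    have h7 : x * (m * Real.log ((N : ℝ) + 1) + (m + 20)) ≤
        (1 + a) * (Real.log ((N : ℝ) + 1) - Real.pi) := by nlinarith
    have h8 : x * (1 / Real.pi * (m * Real.log ((N : ℝ) + 1) + (m + 20)))
        = (x * (m * Real.log ((N : ℝ) + 1) + (m + 20))) / Real.pi := by ring
    have h9 : (1 + a) * (Real.log ((N : ℝ) + 1) / Real.pi - 1)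
        = ((1 + a) * (Real.log ((N : ℝ) + 1) - Real.pi)) / Real.pi := by
      field_simp
    rw [h8, h9]
    exact div_le_div_of_nonneg_right h7 hpi.le

/-- The mean of `|cos φ - cos|`. -/
theorem Mp_cos {φ : ℝ} (h0 : 0 ≤ φ) (h1 : φ ≤ Real.pi) :
    Mp (Real.cos φ) = 2 * (2 * Real.sin φ + (Real.pi - 2 * φ) * Real.cos φ) := by
  unfold Mp
  have hc : Continuous fun x : ℝ => |Real.cos φ - Real.cos x| := by fun_prop
  have s1 : ∫ x in (0:ℝ)..(2 * Real.pi), |Real.cos φ - Real.cos x|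
      = 2 * ∫ x in (0:ℝ)..Real.pi, |Real.cos φ - Real.cos x| := by
    rw [← integral_add_adjacent_intervals (hc.intervalIntegrable 0 Real.pi)
      (hc.intervalIntegrable Real.pi (2 * Real.pi)),
      two_mul (∫ x in (0:ℝ)..Real.pi, |Real.cos φ - Real.cos x|)]
    congr 1
    have h1 := intervalIntegral.integral_comp_sub_left (a := 0) (b := Real.pi)
      (fun x => |Real.cos φ - Real.cos x|) (2 * Real.pi)
    have e1 : 2 * Real.pi - Real.pi = Real.pi := by ring
    have e2 : 2 * Real.pi - 0 = 2 * Real.pi := by ring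
    rw [e1, e2] at h1
    rw [← h1]
    refine intervalIntegral.integral_congr fun θ _ => ?_
    simp only [Real.cos_two_pi_sub]
  rw [s1, ← integral_add_adjacent_intervals (hc.intervalIntegrable 0 φ)
    (hc.intervalIntegrable φ Real.pi)]
  have s2 : ∫ x in (0:ℝ)..φ, |Real.cos φ - Real.cos x| = ∫ x in (0:ℝ)..φ, (Real.cos x - Real.cos φ) := by
    refine intervalIntegral.integral_congr fun x hx => ?_
    rw [Set.uIcc_of_le h0] at hx
    have : Real.cos φ ≤ Real.cos x := Real.cos_le_cos_of_nonneg_of_le_pi hx.1 h1 hx.2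
    rw [abs_of_nonpos (by linarith)]
    ring
  have s3 : ∫ x in φ..Real.pi, |Real.cos φ - Real.cos x|
      = ∫ x in φ..Real.pi, (Real.cos φ - Real.cos x) := by
    refine intervalIntegral.integral_congr fun x hx => ?_
    rw [Set.uIcc_of_le h1] at hx
    have : Real.cos x ≤ Real.cos φ := Real.cos_le_cos_of_nonneg_of_le_pi h0 hx.2 hx.1
    rw [abs_of_nonneg (by linarith)]
  rw [s2, s3, intervalIntegral.integral_sub (by simp) (by simp),
    intervalIntegral.integral_sub (by simp) (by simp), integral_cos, integral_cos,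
    intervalIntegral.integral_const, intervalIntegral.integral_const, smul_eq_mul, smul_eq_mul,
    Real.sin_zero, Real.sin_pi]
  ring

/-- Main theorem: `liminf c_N ≥ π / (2 ω)` for the solution `ω` of `cos ω = ω`. -/
theorem liminf_ge {ω : ℝ} (hω : Real.cos ω = ω) {ε : ℝ} (hε : 0 < ε) :
    ∃ N0 : ℕ, ∀ N ≥ N0, Real.pi / (2 * ω) - ε ≤ cN N := by
  have hpi := Real.pi_pos
  have hω1 : ω ≤ 1 := hω ▸ Real.cos_le_one ω
  have hω0 : 0 < ω := by
    by_contra hcon
    push Not at hcon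
    have h1 : -1 ≤ ω := hω ▸ Real.neg_one_le_cos ω
    have h2 : 0 < Real.cos ω := Real.cos_pos_of_mem_Ioo ⟨by linarith [Real.pi_gt_three], by linarith⟩
    rw [hω] at h2
    linarith
  have hωpi : ω ≤ Real.pi / 2 := by linarith [Real.pi_gt_three]
  set φ : ℝ := Real.pi / 2 - ω with hφ
  have hcos : Real.cos φ = Real.sin ω := by rw [hφ, Real.cos_pi_div_two_sub]
  have hsin : Real.sin φ = ω := by rw [hφ, Real.sin_pi_div_two_sub, hω]
  have hM : Mp (Real.sin ω) = 4 * ω * (1 + Real.sin ω) := by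
    rw [← hcos, Mp_cos (by linarith) (by linarith), hsin, hφ]
    ring
  have hs0 : 0 ≤ Real.sin ω := Real.sin_nonneg_of_nonneg_of_le_pi hω0.le (by linarith)
  have hs1 : Real.sin ω ≤ 1 := Real.sin_le_one ω
  set x : ℝ := max 0 (Real.pi / (2 * ω) - ε) with hx
  have hxlt : x < Real.pi / (2 * ω) := by
    rw [hx]
    exact max_lt (by positivity) (by linarith)
  obtain ⟨N0, hN0⟩ := eventually_ge (a := Real.sin ω) (x := x) hs0 hs1 (by
    rw [hM]
    have h1 : x * (2 * ω) < Real.pi := by rwa [lt_div_iff₀ (by positivity)] at hxlt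
    have h2 : x * (4 * ω * (1 + Real.sin ω) / (2 * Real.pi))
        = (x * (2 * ω)) / Real.pi * (1 + Real.sin ω) := by
      field_simp
      ring
    rw [h2]
    have h3 : (x * (2 * ω)) / Real.pi < 1 := by rwa [div_lt_one hpi]
    have h4 : 0 < 1 + Real.sin ω := by linarith
    nlinarith)
  exact ⟨N0, fun N hN => (le_max_right _ _).trans (hN0 N hN)⟩

theorem dottie_exists : ∃ ω : ℝ, Real.cos ω = ω ∧ 2 < Real.pi / (2 * ω) := by
  have hpi := Real.pi_gt_d2
  have hpi' := Real.pi_lt_d2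
  have h1 : ContinuousOn (fun x : ℝ => Real.cos x - x) (Set.Icc 0 (Real.pi / 4)) := by fun_prop
  have h2 := intermediate_value_Icc' (by linarith : (0:ℝ) ≤ Real.pi / 4) h1
  have h3 : Real.cos (Real.pi / 4) - Real.pi / 4 < 0 := by
    rw [Real.cos_pi_div_four]
    have h4 : Real.sqrt 2 < 1.42 := by
      rw [Real.sqrt_lt' (by norm_num)]
      norm_num
    linarith
  have h5 : (0:ℝ) ∈ Set.Icc (Real.cos (Real.pi / 4) - Real.pi / 4) (Real.cos 0 - 0) := by
    constructor
    · exact h3.le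
    · simp
  obtain ⟨ω, hω, hω2⟩ := h2 h5
  have hω3 : Real.cos ω = ω := by
    have : Real.cos ω - ω = 0 := hω2
    linarith
  have hne : ω ≠ Real.pi / 4 := by
    rintro rfl
    have : Real.cos (Real.pi / 4) - Real.pi / 4 = 0 := hω2
    linarith
  have hlt : ω < Real.pi / 4 := lt_of_le_of_ne hω.2 hne
  have hpos : 0 < ω := by
    rcases hω.1.eq_or_lt with h | h
    · rw [← h, Real.cos_zero] at hω3
      exact absurd hω3 one_ne_zero
    · exact h
  refine ⟨ω, hω3, ?_⟩
  rw [lt_div_iff₀ (by positivity)]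
  linarith

end H34.Toep
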