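import Pool.Agent.H34.Toep.Stretch
import Pool.Agent.H34.Toep.Main

namespace H34.Toep

open MeasureTheory

theorem sqrt3_bounds : (1.732 : ℝ) < Real.sqrt 3 ∧ Real.sqrt 3 < 1.7321 := by
  constructor
  · rw [Real.lt_sqrt (by norm_num)]; norm_num
  · rw [Real.sqrt_lt' (by norm_num)]; norm_num

/-- `c_2 ≥ 8 π / (9 √3)`. -/
theorem cN_two : 8 * Real.pi / (9 * Real.sqrt 3) ≤ cN 2 := by
  have hpi := Real.pi_pos
  have h3 : 0 < Real.sqrt 3 := by positivity
  set t : ℝ → ℝ := fun θ => (Real.cos θ - Real.cos (2 * θ)) / 2 with ht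
  refine cN_ge_nodes 2 {1, -1, 2, -2} ?_ (fun n => if n.natAbs = 1 then 1 / 4 else -1 / 4) t ?_
    (I := 3 * Real.sqrt 3 / (4 * Real.pi)) ?_ (by positivity) ?_
  · intro n hn
    simp only [Finset.mem_insert, Finset.mem_singleton] at hn
    rcases hn with rfl | rfl | rfl | rfl <;> norm_num
  · intro θ
    rw [Finset.sum_insert (by decide), Finset.sum_insert (by decide), Finset.sum_insert (by decide),
      Finset.sum_singleton]
    simp only [ht]
    push_cast
    rw [Complex.cos, Complex.cos]
    have e1 : -((1:ℂ) * θ * Complex.I) = -(θ : ℂ) * Complex.I := by ring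
    have e2 : -(-(1:ℂ) * θ * Complex.I) = (θ : ℂ) * Complex.I := by ring
    have e3 : -((2:ℂ) * θ * Complex.I) = -(2 * (θ : ℂ)) * Complex.I := by ring
    have e4 : -(-(2:ℂ) * θ * Complex.I) = 2 * (θ : ℂ) * Complex.I := by ring
    rw [e1, e2, e3, e4]
    norm_num
    ring
  · have hc : Continuous t := by simp only [ht]; fun_prop
    have hca : Continuous fun θ => |t θ| := hc.abs
    have s1 : ∫ x in (0:ℝ)..(2 * Real.pi), |t x| = 2 * ∫ x in (0:ℝ)..Real.pi, |t x| := by
      rw [← intervalIntegral.integral_add_adjacent_intervals (hca.intervalIntegrable 0 Real.pi)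
        (hca.intervalIntegrable Real.pi (2 * Real.pi)), two_mul (∫ x in (0:ℝ)..Real.pi, |t x|)]
      congr 1
      have h1 := intervalIntegral.integral_comp_sub_left (a := 0) (b := Real.pi)
        (fun x => |t x|) (2 * Real.pi)
      have e1 : 2 * Real.pi - Real.pi = Real.pi := by ring
      have e2 : 2 * Real.pi - 0 = 2 * Real.pi := by ring
      rw [e1, e2] at h1
      rw [← h1]
      refine intervalIntegral.integral_congr fun θ _ => ?_
      simp only [ht]
      rw [Real.cos_two_pi_sub]
      have e3 : 2 * (2 * Real.pi - θ) = ((2 : ℕ) : ℝ) * (2 * Real.pi) - 2 * θ := by push_cast; ring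
      rw [e3, Real.cos_nat_mul_two_pi_sub]
    have hfac : ∀ x, t x = (1 - Real.cos x) * (Real.cos x + 1 / 2) := by
      intro x
      simp only [ht]
      rw [Real.cos_two_mul]
      ring
    have hcos : Real.cos (2 * Real.pi / 3) = -1 / 2 := by
      have : 2 * Real.pi / 3 = Real.pi - Real.pi / 3 := by ring
      rw [this, Real.cos_pi_sub, Real.cos_pi_div_three]
      ring
    have hsin : Real.sin (2 * Real.pi / 3) = Real.sqrt 3 / 2 := by
      have : 2 * Real.pi / 3 = Real.pi - Real.pi / 3 := by ring
      rw [this, Real.sin_pi_sub, Real.sin_pi_div_three]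
    have hsin2 : Real.sin (2 * (2 * Real.pi / 3)) = -(Real.sqrt 3 / 2) := by
      rw [Real.sin_two_mul, hcos, hsin]; ring
    have hint : ∀ u v : ℝ, ∫ x in u..v, t x
        = (Real.sin v / 2 - Real.sin (2 * v) / 4) - (Real.sin u / 2 - Real.sin (2 * u) / 4) := by
      intro u v
      refine intervalIntegral.integral_eq_sub_of_hasDerivAt (f := fun x => Real.sin x / 2 -
        Real.sin (2 * x) / 4) (fun x _ => ?_) (hc.intervalIntegrable u v)
      have d1 : HasDerivAt (fun x : ℝ => Real.sin x / 2) (Real.cos x / 2) x :=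
        (Real.hasDerivAt_sin x).div_const 2
      have d2 : HasDerivAt (fun x : ℝ => Real.sin (2 * x) / 4) (Real.cos (2 * x) * 2 / 4) x := by
        have d3 : HasDerivAt (fun x : ℝ => 2 * x) 2 x := by
          simpa using (hasDerivAt_id x).const_mul 2
        exact (d3.sin).div_const 4
      have d4 : HasDerivAt (fun x : ℝ => Real.sin x / 2 - Real.sin (2 * x) / 4)
          (Real.cos x / 2 - Real.cos (2 * x) * 2 / 4) x := d1.sub d2
      have d5 : t x = Real.cos x / 2 - Real.cos (2 * x) * 2 / 4 := by
        show (Real.cos x - Real.cos (2 * x)) / 2 = _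
        ring
      rw [d5]
      exact d4
    have s2 : ∫ x in (0:ℝ)..(2 * Real.pi / 3), |t x| = ∫ x in (0:ℝ)..(2 * Real.pi / 3), t x := by
      refine intervalIntegral.integral_congr fun x hx => ?_
      rw [Set.uIcc_of_le (by positivity)] at hx
      have h4 : Real.cos (2 * Real.pi / 3) ≤ Real.cos x :=
        Real.cos_le_cos_of_nonneg_of_le_pi hx.1 (by linarith) hx.2
      rw [hcos] at h4
      have h5 : 0 ≤ t x := by
        rw [hfac]
        exact mul_nonneg (by linarith [Real.cos_le_one x]) (by linarith)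
      exact abs_of_nonneg h5
    have s3 : ∫ x in (2 * Real.pi / 3)..Real.pi, |t x| = ∫ x in (2 * Real.pi / 3)..Real.pi, -t x := by
      refine intervalIntegral.integral_congr fun x hx => ?_
      rw [Set.uIcc_of_le (by linarith)] at hx
      have h4 : Real.cos x ≤ Real.cos (2 * Real.pi / 3) :=
        Real.cos_le_cos_of_nonneg_of_le_pi (by positivity) hx.2 hx.1
      rw [hcos] at h4
      have h5 : t x ≤ 0 := by
        rw [hfac]
        exact mul_nonpos_of_nonneg_of_nonpos (by linarith [Real.cos_le_one x]) (by linarith)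
      exact abs_of_nonpos h5
    rw [s1, ← intervalIntegral.integral_add_adjacent_intervals (hca.intervalIntegrable 0
      (2 * Real.pi / 3)) (hca.intervalIntegrable (2 * Real.pi / 3) Real.pi), s2, s3,
      intervalIntegral.integral_neg, hint, hint, hsin, hsin2]
    simp only [Real.sin_zero, mul_zero, Real.sin_pi, Real.sin_two_pi]
    refine le_of_eq ?_
    field_simp
    ring
  · have n0 : node 2 0 = Real.pi / 3 := by unfold node; push_cast; ring
    have n1 : node 2 1 = Real.pi := by unfold node; push_cast; ring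
    have n2 : node 2 2 = 2 * Real.pi - Real.pi / 3 := by unfold node; push_cast; ring
    have v0 : t (Real.pi / 3) = 1 / 2 := by
      simp only [ht]
      rw [Real.cos_two_mul, Real.cos_pi_div_three]; norm_num
    have v1 : t Real.pi = -1 := by
      simp only [ht]
      rw [Real.cos_two_mul, Real.cos_pi]; norm_num
    have v2 : t (2 * Real.pi - Real.pi / 3) = 1 / 2 := by
      simp only [ht]
      rw [Real.cos_two_mul, Real.cos_two_pi_sub, Real.cos_pi_div_three]; norm_num
    rw [Finset.sum_range_succ, Finset.sum_range_succ, Finset.sum_range_succ, Finset.sum_range_zero,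
      n0, n1, n2, v0, v1, v2]
    have hs : Real.sqrt 3 * Real.sqrt 3 = 3 := Real.mul_self_sqrt (by norm_num)
    have e : 8 * Real.pi / (9 * Real.sqrt 3) * (3 * Real.sqrt 3 / (4 * Real.pi)) = 2 / 3 := by
      field_simp
      norm_num
    rw [e]
    norm_num

/-- `c_3 ≥ 3 √2 π / 8`. -/
theorem cN_three : 3 * Real.sqrt 2 * Real.pi / 8 ≤ cN 3 := by
  have hpi := Real.pi_pos
  set c : ℕ → ℝ := fun k => if k = 1 then 0 else 1 with hcdef
  have hP : ∀ θ, sinP 3 c θ = Real.sin θ + Real.sin (3 * θ) := by
    intro θ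
    unfold sinP
    rw [Finset.sum_range_succ, Finset.sum_range_succ, Finset.sum_range_succ, Finset.sum_range_zero]
    simp only [hcdef]
    norm_num
  have hfac : ∀ θ, Real.sin θ + Real.sin (3 * θ) = 4 * Real.sin θ * Real.cos θ ^ 2 := by
    intro θ
    rw [Real.sin_three_mul]
    have := Real.sin_sq_add_cos_sq θ
    have h2 : Real.cos θ ^ 2 = 1 - Real.sin θ ^ 2 := by linarith
    rw [h2]; ring
  refine cN_ge_sin 3 c (I := 8 / (3 * Real.pi)) ?_ (by positivity) ?_
  · rw [int_two]
    have s1 : ∫ θ in (0:ℝ)..Real.pi, |sinP 3 c θ|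
        = ∫ θ in (0:ℝ)..Real.pi, (Real.sin θ + Real.sin (3 * θ)) := by
      refine intervalIntegral.integral_congr fun θ hθ => ?_
      rw [Set.uIcc_of_le hpi.le] at hθ
      show |sinP 3 c θ| = _
      rw [hP, abs_of_nonneg]
      rw [hfac]
      have := Real.sin_nonneg_of_nonneg_of_le_pi hθ.1 hθ.2
      positivity
    have s2 : ∫ θ in (0:ℝ)..Real.pi, (Real.sin θ + Real.sin (3 * θ)) = 8 / 3 := by
      rw [intervalIntegral.integral_add (by simp) (Continuous.intervalIntegrable (by fun_prop) _ _),
        integral_sin]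
      have : ∫ θ in (0:ℝ)..Real.pi, Real.sin (3 * θ) = 2 / 3 := by
        rw [intervalIntegral.integral_comp_mul_left (fun x => Real.sin x) (by norm_num : (3:ℝ) ≠ 0),
          integral_sin]
        have h3 : Real.cos (3 * Real.pi) = -1 := by
          have : 3 * Real.pi = Real.pi + 2 * Real.pi := by ring
          rw [this, Real.cos_add_two_pi, Real.cos_pi]
        rw [h3]
        simp
        norm_num
      rw [this]
      simp
      norm_num
    rw [s1, s2]
    refine le_of_eq ?_
    field_simp
  · have key : ∀ l : ℕ, |sinP 3 c (node 3 l)| = Real.sqrt 2 := by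
      intro l
      rw [hP, hfac]
      have e : node 3 l = Real.pi / 4 + l * (Real.pi / 2) := by unfold node; push_cast; ring
      -- `sin^2 = cos^2 = 1/2` at the nodes
      have h2 : Real.cos (2 * node 3 l) = 0 := by
        rw [Real.cos_eq_zero_iff]
        refine ⟨l, ?_⟩
        rw [e]; push_cast; ring
      rw [Real.cos_two_mul] at h2
      have h3 : Real.cos (node 3 l) ^ 2 = 1 / 2 := by linarith
      have h4 : Real.sin (node 3 l) ^ 2 = 1 / 2 := by
        have := Real.sin_sq_add_cos_sq (node 3 l); linarith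
      have h5 : |4 * Real.sin (node 3 l) * Real.cos (node 3 l) ^ 2| = 2 * |Real.sin (node 3 l)| := by
        rw [h3, abs_mul, abs_mul]
        norm_num
        ring
      rw [h5]
      symm
      rw [Real.sqrt_eq_iff_mul_self_eq (by norm_num) (by positivity)]
      have h6 : |Real.sin (node 3 l)| * |Real.sin (node 3 l)| = Real.sin (node 3 l) ^ 2 := by
        rw [← abs_mul, ← pow_two, abs_of_nonneg (sq_nonneg _)]
      nlinarith
    rw [Finset.sum_congr rfl fun l _ => key l, Finset.sum_const, Finset.card_range, nsmul_eq_mul]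
    refine le_of_eq ?_
    push_cast
    field_simp
    norm_num

/-- `c_N ≥ 8 π / (9 √3)` for all `N ≥ 2`. -/
theorem cN_ge_all {N : ℕ} (hN : 2 ≤ N) : 8 * Real.pi / (9 * Real.sqrt 3) ≤ cN N := by
  have hpi := Real.pi_pos
  rcases Nat.even_or_odd N with h | h
  · obtain ⟨k, hk⟩ := h
    exact cN_two.trans (cN_mono_mult (m := k) (by omega) (by omega))
  · obtain ⟨k, hk⟩ := h
    rcases Nat.lt_or_ge k 2 with h2 | h2
    · have h3 : N = 3 := by omega
      subst h3
      refine le_trans ?_ cN_three
      have hs := sqrt3_bounds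
      have h4 : (1.414 : ℝ) < Real.sqrt 2 := by
        rw [Real.lt_sqrt (by norm_num)]; norm_num
      rw [div_le_div_iff₀ (by positivity) (by norm_num)]
      have h5 : (64 : ℝ) ≤ 27 * (Real.sqrt 2 * Real.sqrt 3) := by nlinarith
      nlinarith
    · exact cN_two.trans (cN_mono_mult (m := k) (by omega) (by omega))

end H34.Toep
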