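import Pool.Agent.H34.Toep.Basic

namespace H34.Toep

open MeasureTheory Matrix

/-- The nodes `(2 l + 1) π / (N + 1)`. -/
noncomputable def node (N l : ℕ) : ℝ := (2 * l + 1) * Real.pi / (N + 1)

theorem orth (N : ℕ) (m : ℤ) (hm : |m| ≤ N) :
    ∑ l : Fin (N + 1), Complex.exp (m * node N l * Complex.I) = if m = 0 then ((N : ℂ) + 1) else 0 := by
  split_ifs with h
  · subst h
    simp
  · have hN : ((N : ℂ) + 1) ≠ 0 := by exact_mod_cast Nat.succ_ne_zero N
    set ζ : ℂ := Complex.exp (2 * Real.pi * Complex.I * m / (N + 1)) with hζ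
    have h1 : ∀ l : ℕ, Complex.exp (m * node N l * Complex.I)
        = Complex.exp (Real.pi * Complex.I * m / (N + 1)) * ζ ^ l := by
      intro l
      rw [hζ, ← Complex.exp_nat_mul, ← Complex.exp_add]
      congr 1
      unfold node
      push_cast
      field_simp
      ring
    have h2 : ζ ^ (N + 1) = 1 := by
      rw [hζ, ← Complex.exp_nat_mul]
      have : ((N + 1 : ℕ) : ℂ) * (2 * Real.pi * Complex.I * m / (N + 1))
          = m * (2 * Real.pi * Complex.I) := by
        push_cast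
        field_simp
      rw [this, Complex.exp_int_mul_two_pi_mul_I]
    have h3 : ζ ≠ 1 := by
      intro hcon
      rw [hζ, Complex.exp_eq_one_iff] at hcon
      obtain ⟨k, hk⟩ := hcon
      have hpi : (2 * Real.pi * Complex.I : ℂ) ≠ 0 := Complex.two_pi_I_ne_zero
      have h4 : (m : ℂ) = k * (N + 1) := by
        have h5 : (2 * Real.pi * Complex.I : ℂ) * m = (2 * Real.pi * Complex.I) * (k * (N + 1)) := by
          have h6 : 2 * (Real.pi : ℂ) * Complex.I * m / (N + 1) * ((N : ℂ) + 1)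
              = k * (2 * Real.pi * Complex.I) * ((N : ℂ) + 1) := by rw [hk]
          rw [div_mul_cancel₀ _ hN] at h6
          rw [h6]; ring
        exact mul_left_cancel₀ hpi h5
      have h6 : m = k * (N + 1) := by exact_mod_cast h4
      rw [h6, abs_mul] at hm
      have h7 : k ≠ 0 := by
        rintro rfl
        exact h (by rw [h6]; ring)
      have h8 : 1 ≤ |k| := Int.one_le_abs h7
      have h9 : |((N : ℤ) + 1)| = N + 1 := abs_of_nonneg (by positivity)
      rw [h9] at hm
      nlinarith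
    have h4 : ∑ l ∈ Finset.range (N + 1), ζ ^ l = 0 := by
      have h5 := mul_geom_sum ζ (N + 1)
      rw [h2, sub_self] at h5
      rcases mul_eq_zero.1 h5 with h6 | h6
      · exact absurd (sub_eq_zero.1 h6) h3
      · exact h6
    rw [Fin.sum_univ_eq_sum_range (fun l => Complex.exp (m * node N l * Complex.I))]
    rw [Finset.sum_congr rfl fun l _ => h1 l, ← Finset.mul_sum, h4, mul_zero]

/-- The coefficients of the measure with masses `s l / (N + 1)` at the nodes. -/
noncomputable def nodeCoef (N : ℕ) (s : Fin (N + 1) → ℝ) (k : ℤ) : ℂ :=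
  (1 / ((N : ℂ) + 1)) * ∑ l : Fin (N + 1), (s l : ℂ) * Complex.exp (-(k * node N l * Complex.I))

theorem nodeCoef_herm (N : ℕ) (s : Fin (N + 1) → ℝ) (k : ℤ) :
    nodeCoef N s (-k) = (starRingEnd ℂ) (nodeCoef N s k) := by
  unfold nodeCoef
  rw [map_mul, map_sum]
  congr 1
  · simp
  · refine Finset.sum_congr rfl fun l _ => ?_
    rw [map_mul, Complex.conj_ofReal, ← Complex.exp_conj]
    congr 2
    simp

theorem toep_nodeCoef (N : ℕ) (s : Fin (N + 1) → ℝ) (hs : ∀ l, s l ^ 2 = 1) :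
    (toep N (nodeCoef N s))ᴴ * toep N (nodeCoef N s) = 1 := by
  set U : Matrix (Fin (N + 1)) (Fin (N + 1)) ℂ :=
    Matrix.of fun l j => Complex.exp ((j : ℕ) * node N l * Complex.I) with hU
  have hN : ((N : ℂ) + 1) ≠ 0 := by exact_mod_cast Nat.succ_ne_zero N
  have h1 : Uᴴ * U = ((N : ℂ) + 1) • (1 : Matrix (Fin (N + 1)) (Fin (N + 1)) ℂ) := by
    ext j k
    rw [Matrix.mul_apply, Matrix.smul_apply, Matrix.one_apply]
    have h2 : ∀ l, Uᴴ j l * U l k
        = Complex.exp ((((k : ℕ) : ℤ) - ((j : ℕ) : ℤ) : ℤ) * node N l * Complex.I) := by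
      intro l
      rw [Matrix.conjTranspose_apply, hU]
      simp only [Matrix.of_apply]
      rw [RCLike.star_def, ← Complex.exp_conj, ← Complex.exp_add]
      congr 1
      simp
      ring
    rw [Finset.sum_congr rfl fun l _ => h2 l, orth N _ (by
      have := j.isLt; have := k.isLt; rw [abs_le]; constructor <;> omega)]
    by_cases h : j = k
    · subst h; simp
    · have h' : (((k : ℕ) : ℤ) - ((j : ℕ) : ℤ)) ≠ 0 := by
        intro h3
        apply h
        ext
        omega
      simp [h, h']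
  have h2 : U * Uᴴ = ((N : ℂ) + 1) • (1 : Matrix (Fin (N + 1)) (Fin (N + 1)) ℂ) := by
    have h3 : (((N : ℂ) + 1)⁻¹ • Uᴴ) * U = 1 := by
      rw [Matrix.smul_mul, h1, smul_smul, inv_mul_cancel₀ hN, one_smul]
    have h4 := mul_eq_one_comm.1 h3
    rw [Matrix.mul_smul] at h4
    have h5 := congrArg (fun M => ((N : ℂ) + 1) • M) h4
    simp only [smul_smul, mul_inv_cancel₀ hN, one_smul] at h5
    exact h5
  have h3 : toep N (nodeCoef N s)
      = ((N : ℂ) + 1)⁻¹ • (Uᴴ * Matrix.diagonal (fun l => (s l : ℂ)) * U) := by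
    ext j k
    rw [Matrix.smul_apply, Matrix.mul_apply]
    simp only [toep, Matrix.of_apply, nodeCoef, Matrix.mul_diagonal, one_div, smul_eq_mul]
    congr 1
    refine Finset.sum_congr rfl fun l _ => ?_
    rw [Matrix.conjTranspose_apply, hU]
    simp only [Matrix.of_apply]
    rw [RCLike.star_def, ← Complex.exp_conj]
    have h6 : ∀ x y z : ℂ, Complex.exp x * z * Complex.exp y = z * Complex.exp (x + y) := by
      intro x y z
      rw [Complex.exp_add]; ring
    rw [h6]
    congr 2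
    simp
    ring
  have h4 : (toep N (nodeCoef N s))ᴴ
      = ((N : ℂ) + 1)⁻¹ • (Uᴴ * Matrix.diagonal (fun l => (s l : ℂ)) * U) := by
    rw [h3, Matrix.conjTranspose_smul, Matrix.conjTranspose_mul, Matrix.conjTranspose_mul,
      Matrix.conjTranspose_conjTranspose, Matrix.diagonal_conjTranspose]
    congr 1
    · simp
    · rw [Matrix.mul_assoc]
      have h5 : star (fun l => (s l : ℂ)) = fun l => (s l : ℂ) := by
        funext l
        simp
      rw [h5]
  rw [h4, h3, Matrix.smul_mul, Matrix.mul_smul, smul_smul]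
  have h5 : Uᴴ * Matrix.diagonal (fun l => (s l : ℂ)) * U *
      (Uᴴ * Matrix.diagonal (fun l => (s l : ℂ)) * U)
      = Uᴴ * Matrix.diagonal (fun l => (s l : ℂ)) * (U * Uᴴ) *
        Matrix.diagonal (fun l => (s l : ℂ)) * U := by
    simp only [Matrix.mul_assoc]
  rw [h5, h2, Matrix.mul_smul, Matrix.mul_one, Matrix.smul_mul, Matrix.smul_mul,
    Matrix.mul_assoc Uᴴ, Matrix.diagonal_mul_diagonal]
  have h6 : (Matrix.diagonal fun i => (s i : ℂ) * (s i : ℂ))
      = (1 : Matrix (Fin (N + 1)) (Fin (N + 1)) ℂ) := by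
    rw [← Matrix.diagonal_one]
    congr 1
    ext i
    have := hs i
    rw [← Complex.ofReal_mul, ← pow_two, this, Complex.ofReal_one]
  rw [h6, Matrix.mul_one, h1, smul_smul, smul_smul]
  have h7 : ((N : ℂ) + 1)⁻¹ * ((N : ℂ) + 1)⁻¹ * ((N : ℂ) + 1) * ((N : ℂ) + 1) = 1 := by
    field_simp
  rw [h7, one_smul]

theorem opn_nodeCoef (N : ℕ) (s : Fin (N + 1) → ℝ) (hs : ∀ l, s l ^ 2 = 1) :
    opn (toep N (nodeCoef N s)) ≤ 1 := by
  have h1 := toep_nodeCoef N s hs
  set A := toep N (nodeCoef N s)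
  set T := Matrix.toEuclideanCLM (𝕜 := ℂ) A with hT
  have h2 : star T * T = 1 := by
    rw [hT, ← map_star, ← map_mul]
    have : star A * A = 1 := h1
    rw [this, map_one]
  have h3 : ‖T‖ * ‖T‖ ≤ 1 := by
    rw [← CStarRing.norm_star_mul_self, h2]
    exact ContinuousLinearMap.norm_id_le
  show ‖T‖ ≤ 1
  nlinarith [norm_nonneg T]

theorem toep_nodeCoef_ne (N : ℕ) (s : Fin (N + 1) → ℝ) (hs : ∀ l, s l ^ 2 = 1) :
    toep N (nodeCoef N s) ≠ 0 := by
  intro h
  have h1 := toep_nodeCoef N s hs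
  rw [h, Matrix.mul_zero] at h1
  exact zero_ne_one h1

theorem cN_ge_nodes (N : ℕ) (S : Finset ℤ) (hS : ∀ n ∈ S, |n| ≤ N) (τ : ℤ → ℂ) (t : ℝ → ℝ)
    (ht : ∀ θ : ℝ, ∑ n ∈ S, τ n * Complex.exp (-(n * θ * Complex.I)) = (t θ : ℂ)) {I x : ℝ}
    (hI : (1 / (2 * Real.pi)) * ∫ θ in (0:ℝ)..(2 * Real.pi), |t θ| ≤ I) (hI0 : 0 < I)
    (hx : x * I ≤ (1 / ((N : ℝ) + 1)) * ∑ l ∈ Finset.range (N + 1), |t (node N l)|) :
    x ≤ cN N := by
  set s : Fin (N + 1) → ℝ := fun l => if 0 ≤ t (node N l) then 1 else -1 with hs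
  have hs2 : ∀ l, s l ^ 2 = 1 := by
    intro l
    simp only [hs]
    split_ifs <;> norm_num
  have hst : ∀ l : Fin (N + 1), s l * t (node N l) = |t (node N l)| := by
    intro l
    simp only [hs]
    split_ifs with h
    · rw [one_mul, abs_of_nonneg h]
    · rw [neg_one_mul, abs_of_neg (not_le.1 h)]
  refine le_cN (nodeCoef_herm N s) (toep_nodeCoef_ne N s hs2) (opn_nodeCoef N s hs2) ?_
  refine cA_ge (I := I) S hS τ ?_ ?_ hI0
  · refine le_trans (le_of_eq ?_) hI
    congr 1
    refine intervalIntegral.integral_congr fun θ _ => ?_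
    simp only [ht θ, Complex.norm_real, Real.norm_eq_abs]
  · refine hx.trans (le_of_eq ?_)
    have h1 : ∑ n ∈ S, τ n * nodeCoef N s n
        = (((1 / ((N : ℝ) + 1)) * ∑ l ∈ Finset.range (N + 1), |t (node N l)| : ℝ) : ℂ) := by
      rw [← Fin.sum_univ_eq_sum_range (fun l => |t (node N l)|)]
      push_cast
      have h2 : ∀ l : Fin (N + 1), ((|t (node N l)| : ℝ) : ℂ)
          = ∑ n ∈ S, τ n * ((s l : ℂ) * Complex.exp (-(n * node N l * Complex.I))) := by
        intro l
        rw [← hst l]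
        push_cast
        rw [← ht (node N l), Finset.mul_sum]
        exact Finset.sum_congr rfl fun n _ => by ring
      rw [Finset.sum_congr rfl fun l _ => h2 l, Finset.sum_comm, Finset.mul_sum]
      refine Finset.sum_congr rfl fun n _ => ?_
      unfold nodeCoef
      rw [← Finset.mul_sum]
      ring
    rw [h1, Complex.norm_real, Real.norm_of_nonneg]
    exact mul_nonneg (by positivity) (Finset.sum_nonneg fun _ _ => abs_nonneg _)

end H34.Toep
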