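import Pool.Agent.H34.Toep.First

namespace H34.Toep

open MeasureTheory

/-- The square wave. -/
noncomputable def hs (φ : ℝ) : ℂ := if 0 ≤ Real.cos φ then 1 else -1

theorem hs_meas : Measurable hs := by
  unfold hs
  exact Measurable.ite (measurableSet_le measurable_const Real.measurable_cos) measurable_const
    measurable_const

theorem hs_norm (φ : ℝ) : ‖hs φ‖ = 1 := by
  unfold hs
  split_ifs <;> simp

theorem hs_per (φ : ℝ) : hs (φ + 2 * Real.pi) = hs φ := by
  unfold hs
  rw [Real.cos_add_two_pi]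

noncomputable def hF (n : ℤ) (φ : ℝ) : ℂ := hs φ * Complex.exp (-(n * φ * Complex.I))

theorem hF_ii (n : ℤ) (s t : ℝ) : IntervalIntegrable (hF n) volume s t := by
  refine IntervalIntegrable.mono_fun' (g := fun _ => (1:ℝ)) (by simp)
    (hs_meas.mul (by fun_prop)).aestronglyMeasurable ?_
  refine Filter.Eventually.of_forall fun φ => ?_
  show ‖hs φ * Complex.exp (-(n * φ * Complex.I))‖ ≤ 1
  rw [norm_mul, hs_norm, one_mul]
  have e1 : -((n : ℂ) * φ * Complex.I) = ((-(n * φ) : ℝ) : ℂ) * Complex.I := by push_cast; ring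
  rw [e1, Complex.norm_exp_ofReal_mul_I]

theorem hF_per (n : ℤ) : Function.Periodic (hF n) (2 * Real.pi) := by
  intro φ
  unfold hF
  rw [hs_per]
  congr 1
  have e1 : -((n : ℂ) * ((φ + 2 * Real.pi : ℝ) : ℂ) * Complex.I)
      = -(n * φ * Complex.I) + ((-n : ℤ) : ℂ) * (2 * Real.pi * Complex.I) := by push_cast; ring
  rw [e1, Complex.exp_add, Complex.exp_int_mul_two_pi_mul_I, mul_one]

theorem hF_int (n : ℤ) (hn : |n| ≤ 1) (β : ℝ) :
    ∫ φ in β..(β + 2 * Real.pi), hF n φ = if n = 0 then 0 else 4 := by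
  have hpi := Real.pi_pos
  rw [(hF_per n).intervalIntegral_add_eq β (-(Real.pi / 2)),
    ← intervalIntegral.integral_add_adjacent_intervals (b := Real.pi / 2) (hF_ii n _ _)
    (hF_ii n _ _)]
  have i1 : ∫ φ in (-(Real.pi / 2))..(Real.pi / 2), hF n φ
      = ∫ φ in (-(Real.pi / 2))..(Real.pi / 2), Complex.exp (-(n * φ * Complex.I)) := by
    refine intervalIntegral.integral_congr fun φ hφ => ?_
    rw [Set.uIcc_of_le (by linarith)] at hφ
    simp only [hF, hs]
    rw [if_pos (Real.cos_nonneg_of_neg_pi_div_two_le_of_le hφ.1 hφ.2), one_mul]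
  have i2 : ∫ φ in (Real.pi / 2)..(-(Real.pi / 2) + 2 * Real.pi), hF n φ
      = ∫ φ in (Real.pi / 2)..(-(Real.pi / 2) + 2 * Real.pi), -Complex.exp (-(n * φ * Complex.I)) := by
    refine intervalIntegral.integral_congr_ae ?_
    have h0 : ∀ᵐ φ : ℝ, φ ≠ -(Real.pi / 2) + 2 * Real.pi := by
      simp [ae_iff, measure_singleton]
    filter_upwards [h0] with φ hφ0 hφ
    rw [Set.uIoc_of_le (by linarith)] at hφ
    have h1 : φ < -(Real.pi / 2) + 2 * Real.pi := lt_of_le_of_ne hφ.2 hφ0
    simp only [hF, hs]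
    rw [if_neg, neg_one_mul]
    rw [not_le]
    exact Real.cos_neg_of_pi_div_two_lt_of_lt hφ.1 (by linarith)
  rw [i1, i2, intervalIntegral.integral_neg]
  by_cases h : n = 0
  · subst h
    simp
    ring
  · rw [if_neg h]
    have hc : -(n : ℂ) * Complex.I ≠ 0 := by
      refine mul_ne_zero (neg_ne_zero.2 (by exact_mod_cast h)) Complex.I_ne_zero
    have h1 : ∀ φ : ℝ, Complex.exp (-(n * φ * Complex.I)) = Complex.exp (-(n : ℂ) * Complex.I * φ) := by
      intro φ
      ring_nf
    simp only [h1]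
    rw [integral_exp_mul_complex hc, integral_exp_mul_complex hc]
    have hn' : n = 1 ∨ n = -1 := by
      rcases abs_le.1 hn with ⟨h2, h3⟩
      omega
    have E1 : Complex.exp (Real.pi / 2 * Complex.I) = Complex.I := Complex.exp_pi_div_two_mul_I
    have E2 : Complex.exp (-(Real.pi / 2 * Complex.I)) = -Complex.I := by
      rw [Complex.exp_neg, E1, Complex.inv_I]
    have E3 : Complex.exp (2 * Real.pi * Complex.I) = 1 := Complex.exp_two_pi_mul_I
    rcases hn' with rfl | rfl
    · have e1 : -((1 : ℤ) : ℂ) * Complex.I * ((Real.pi / 2 : ℝ) : ℂ) = -(Real.pi / 2 * Complex.I) := by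
        push_cast; ring
      have e2 : -((1 : ℤ) : ℂ) * Complex.I * ((-(Real.pi / 2) : ℝ) : ℂ) = Real.pi / 2 * Complex.I := by
        push_cast; ring
      have e3 : -((1 : ℤ) : ℂ) * Complex.I * ((-(Real.pi / 2) + 2 * Real.pi : ℝ) : ℂ)
          = Real.pi / 2 * Complex.I - 2 * Real.pi * Complex.I := by
        push_cast; ring
      rw [e1, e2, e3, Complex.exp_sub, E1, E2, E3]
      push_cast
      have hI := Complex.I_ne_zero
      field_simp
      norm_num
    · have e1 : -((-1 : ℤ) : ℂ) * Complex.I * ((Real.pi / 2 : ℝ) : ℂ) = Real.pi / 2 * Complex.I := by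
        push_cast; ring
      have e2 : -((-1 : ℤ) : ℂ) * Complex.I * ((-(Real.pi / 2) : ℝ) : ℂ)
          = -(Real.pi / 2 * Complex.I) := by
        push_cast; ring
      have e3 : -((-1 : ℤ) : ℂ) * Complex.I * ((-(Real.pi / 2) + 2 * Real.pi : ℝ) : ℂ)
          = -(Real.pi / 2 * Complex.I) + 2 * Real.pi * Complex.I := by
        push_cast; ring
      rw [e1, e2, e3, Complex.exp_add, E1, E2, E3]
      push_cast
      have hI := Complex.I_ne_zero
      field_simp
      norm_num

theorem cA_one_le {a : ℤ → ℂ} (ha : ∀ n, a (-n) = (starRingEnd ℂ) (a n)) :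
    cA 1 a ≤ Real.pi / 2 * (‖a 0‖ + ‖a 1‖) := by
  have hpi := Real.pi_pos
  have hbb : BddBelow {r : ℝ | 0 ≤ r ∧ ∃ f : ℝ → ℂ, Induces 1 a f r} := ⟨0, fun r hr => hr.1⟩
  set β : ℝ := Complex.arg (a 1) with hβ
  refine csInf_le hbb ⟨by positivity, fun θ => a 0 + (Real.pi / 2 * ‖a 1‖ : ℝ) * hs (θ + β), ?_, ?_, ?_⟩
  · exact measurable_const.add (measurable_const.mul (hs_meas.comp (by fun_prop)))
  · refine Filter.Eventually.of_forall fun θ => ?_
    refine (norm_add_le _ _).trans ?_
    rw [norm_mul, hs_norm, mul_one, Complex.norm_real, Real.norm_of_nonneg (by positivity)]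
    have : 1 ≤ Real.pi / 2 := by linarith [Real.pi_gt_three]
    nlinarith [norm_nonneg (a 0)]
  · intro n hn
    have hn1 : |n| ≤ 1 := by exact_mod_cast hn
    unfold coef
    have h1 : ∀ θ : ℝ, (a 0 + (Real.pi / 2 * ‖a 1‖ : ℝ) * hs (θ + β)) * Complex.exp (-(n * θ * Complex.I))
        = a 0 * Complex.exp (((-n : ℤ) : ℂ) * θ * Complex.I)
          + ((Real.pi / 2 * ‖a 1‖ : ℝ) * Complex.exp (n * β * Complex.I)) * hF n (θ + β) := by
      intro θ
      unfold hF
      have e1 : Complex.exp (-(n * θ * Complex.I))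
          = Complex.exp (n * β * Complex.I) * Complex.exp (-(n * ((θ + β : ℝ) : ℂ) * Complex.I)) := by
        rw [← Complex.exp_add]
        congr 1
        push_cast
        ring
      have e2 : Complex.exp (((-n : ℤ) : ℂ) * θ * Complex.I) = Complex.exp (-(n * θ * Complex.I)) := by
        congr 1
        push_cast
        ring
      rw [e2, add_mul]
      congr 1
      rw [e1]
      ring
    simp only [h1]
    rw [intervalIntegral.integral_add, intervalIntegral.integral_const_mul,
      intervalIntegral.integral_const_mul, integral_exp_int,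
      intervalIntegral.integral_comp_add_right (fun φ => hF n φ), zero_add, add_comm (2 * Real.pi) β,
      hF_int n hn1]
    · have hn' : n = 0 ∨ n = 1 ∨ n = -1 := by
        rcases abs_le.1 hn1 with ⟨h2, h3⟩
        omega
      have hpiC : (Real.pi : ℂ) ≠ 0 := by exact_mod_cast hpi.ne'
      have hpol : (‖a 1‖ : ℂ) * Complex.exp (β * Complex.I) = a 1 := Complex.norm_mul_exp_arg_mul_I _
      rcases hn' with rfl | rfl | rfl
      · simp
        field_simp
      · have e1 : ((1 : ℤ) : ℂ) * β * Complex.I = β * Complex.I := by push_cast; ring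
        rw [e1, if_neg (by norm_num), if_neg (by norm_num), mul_zero, zero_add]
        conv_rhs => rw [← hpol]
        push_cast
        field_simp
        ring
      · have e1 : ((-1 : ℤ) : ℂ) * β * Complex.I = (starRingEnd ℂ) (β * Complex.I) := by
          rw [map_mul, Complex.conj_ofReal, Complex.conj_I]
          push_cast; ring
        have e2 : a (-1) = (‖a 1‖ : ℂ) * Complex.exp ((starRingEnd ℂ) (β * Complex.I)) := by
          rw [ha 1, Complex.exp_conj, ← hpol, map_mul, Complex.conj_ofReal]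
          rw [hpol]
        rw [e1, if_neg (by norm_num), if_neg (by norm_num), mul_zero, zero_add, e2]
        push_cast
        field_simp
        ring
    · exact Continuous.intervalIntegrable (by fun_prop) _ _
    · refine IntervalIntegrable.const_mul ?_ _
      have := (hF_ii n (0 + β) (2 * Real.pi + β)).comp_add_right β
      simpa using this

theorem opn_one_ge {a : ℤ → ℂ} (ha : ∀ n, a (-n) = (starRingEnd ℂ) (a n)) :
    ‖a 0‖ + ‖a 1‖ ≤ opn (toep 1 a) := by
  have h0 : (starRingEnd ℂ) (a 0) = a 0 := by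
    have := ha 0
    simpa using this.symm
  obtain ⟨x, hx⟩ := Complex.conj_eq_iff_real.1 h0
  set β : ℝ := Complex.arg (a 1) with hβ
  have hpol : (‖a 1‖ : ℂ) * Complex.exp (β * Complex.I) = a 1 := Complex.norm_mul_exp_arg_mul_I _
  set s : ℝ := if 0 ≤ x then 1 else -1 with hs
  have hs2 : s * s = 1 := by rw [hs]; split_ifs <;> norm_num
  have hsx : s * x = |x| := by
    rw [hs]; split_ifs with h
    · rw [one_mul, abs_of_nonneg h]
    · rw [neg_one_mul, abs_of_neg (not_le.1 h)]
  have hE : Complex.exp (β * Complex.I) * (starRingEnd ℂ) (Complex.exp (β * Complex.I)) = 1 := by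
    rw [Complex.mul_conj, Complex.normSq_eq_norm_sq, Complex.norm_exp_ofReal_mul_I]
    norm_num
  have hEn : ‖Complex.exp (β * Complex.I)‖ = 1 := Complex.norm_exp_ofReal_mul_I β
  have hsn : ‖(s : ℂ)‖ = 1 := by
    rw [Complex.norm_real]; rw [hs]; split_ifs <;> norm_num
  have h := opn_ge (toep 1 a) ![1, (s : ℂ) * Complex.exp (β * Complex.I)]
  rw [Fin.sum_univ_two, Fin.sum_univ_two, Fin.sum_univ_two, Fin.sum_univ_two] at h
  simp only [toep, Matrix.of_apply, Matrix.cons_val_zero, Matrix.cons_val_one, Fin.val_zero,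
    Fin.val_one, Nat.cast_zero, Nat.cast_one, sub_self, zero_sub, sub_zero, mul_one] at h
  have e0 : a 0 + a (-1) * ((s : ℂ) * Complex.exp (β * Complex.I)) = ((s * (|x| + ‖a 1‖) : ℝ) : ℂ) := by
    have h1 : a (-1) * Complex.exp (β * Complex.I) = (‖a 1‖ : ℂ) := by
      rw [ha 1]
      nth_rewrite 1 [← hpol]
      rw [map_mul, Complex.conj_ofReal, mul_assoc, mul_comm ((starRingEnd ℂ) _), hE, mul_one]
    have h2 : a (-1) * ((s : ℂ) * Complex.exp (β * Complex.I))
        = s * (a (-1) * Complex.exp (β * Complex.I)) := by ring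
    rw [h2, h1, hx, ← hsx]
    push_cast
    have h3 : (s : ℂ) * s = 1 := by exact_mod_cast hs2
    linear_combination (-(x : ℂ)) * h3
  have e1 : a 1 + a 0 * ((s : ℂ) * Complex.exp (β * Complex.I))
      = ((|x| + ‖a 1‖ : ℝ) : ℂ) * Complex.exp (β * Complex.I) := by
    rw [hx, ← hsx]
    nth_rewrite 1 [← hpol]
    push_cast
    ring
  have h5 : 0 ≤ |x| + ‖a 1‖ := by positivity
  have n0 : ‖((s * (|x| + ‖a 1‖) : ℝ) : ℂ)‖ = |x| + ‖a 1‖ := by
    rw [Complex.norm_real, norm_mul, ← Complex.norm_real, hsn, one_mul, Real.norm_of_nonneg h5]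
  have n1 : ‖((|x| + ‖a 1‖ : ℝ) : ℂ) * Complex.exp (β * Complex.I)‖ = |x| + ‖a 1‖ := by
    rw [norm_mul, hEn, mul_one, Complex.norm_real, Real.norm_of_nonneg h5]
  have n2 : ‖(s : ℂ) * Complex.exp (β * Complex.I)‖ = 1 := by rw [norm_mul, hEn, hsn, mul_one]
  rw [e0, e1, n0, n1, n2, norm_one] at h
  have hxn : ‖a 0‖ = |x| := by rw [hx, Complex.norm_real, Real.norm_eq_abs]
  rw [hxn]
  refine le_of_sq_le_sq ?_ (opn_nonneg _)
  change _ ≤ opn (toep 1 a) ^ 2 * _ at h
  linarith

/-- `c_1 ≤ π / 2`. -/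
theorem cN_one_le : cN 1 ≤ Real.pi / 2 := by
  refine csSup_le (cN_nonempty 1) ?_
  rintro x ⟨a, ha, h0, rfl⟩
  rw [div_le_iff₀ (opn_pos h0)]
  exact (cA_one_le ha).trans (mul_le_mul_of_nonneg_left (opn_one_ge ha) (by positivity))

/-- `c_1 ≥ π / 2`. -/
theorem cN_one_ge : Real.pi / 2 ≤ cN 1 := by
  have hpi := Real.pi_pos
  have hP : ∀ θ, sinP 1 (fun _ => 1) θ = Real.sin θ := by
    intro θ
    unfold sinP
    simp
  refine cN_ge_sin 1 (fun _ => 1) (I := 2 / Real.pi) ?_ (by positivity) ?_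
  · rw [int_two]
    have s1 : ∫ θ in (0:ℝ)..Real.pi, |sinP 1 (fun _ => 1) θ|
        = ∫ θ in (0:ℝ)..Real.pi, Real.sin θ := by
      refine intervalIntegral.integral_congr fun θ hθ => ?_
      rw [Set.uIcc_of_le hpi.le] at hθ
      show |sinP 1 (fun _ => 1) θ| = _
      rw [hP, abs_of_nonneg (Real.sin_nonneg_of_nonneg_of_le_pi hθ.1 hθ.2)]
    rw [s1, integral_sin, Real.cos_zero, Real.cos_pi]
    refine le_of_eq ?_
    field_simp
    norm_num
  · have n0 : node 1 0 = Real.pi / 2 := by unfold node; push_cast; ring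
    have n1 : node 1 1 = Real.pi / 2 + Real.pi := by unfold node; push_cast; ring
    rw [Finset.sum_range_succ, Finset.sum_range_succ, Finset.sum_range_zero, n0, n1, hP, hP,
      Real.sin_pi_div_two, Real.sin_add_pi, Real.sin_pi_div_two]
    refine le_of_eq ?_
    norm_num

end H34.Toep
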