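import Pool.Agent.H34.Toep.Nodes

namespace H34.Toep

open MeasureTheory

/-- The sine polynomial with coefficients `c`. -/
noncomputable def sinP (N : ℕ) (c : ℕ → ℝ) (θ : ℝ) : ℝ :=
  ∑ k ∈ Finset.range N, c k * Real.sin (((k : ℝ) + 1) * θ)

theorem cN_ge_sin (N : ℕ) (c : ℕ → ℝ) {I x : ℝ}
    (hI : (1 / (2 * Real.pi)) * ∫ θ in (0:ℝ)..(2 * Real.pi), |sinP N c θ| ≤ I) (hI0 : 0 < I)
    (hx : x * I ≤ (1 / ((N : ℝ) + 1)) * ∑ l ∈ Finset.range (N + 1), |sinP N c (node N l)|) :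
    x ≤ cN N := by
  classical
  set S1 : Finset ℤ := (Finset.range N).image (fun m : ℕ => (m : ℤ) + 1) with hS1
  set S2 : Finset ℤ := (Finset.range N).image (fun m : ℕ => -((m : ℤ) + 1)) with hS2
  set τ : ℤ → ℂ := fun n => (Complex.I / 2) * (Int.sign n : ℤ) * (c (n.natAbs - 1) : ℝ) with hτ
  refine cN_ge_nodes N (S1 ∪ S2) ?_ τ (sinP N c) ?_ hI hI0 hx
  · intro n hn
    rw [Finset.mem_union, hS1, hS2, Finset.mem_image, Finset.mem_image] at hn
    rcases hn with ⟨m, hm, rfl⟩ | ⟨m, hm, rfl⟩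
    · rw [Finset.mem_range] at hm
      rw [abs_le]; constructor <;> omega
    · rw [Finset.mem_range] at hm
      rw [abs_le]; constructor <;> omega
  · intro θ
    have hdis : Disjoint S1 S2 := by
      rw [Finset.disjoint_left]
      intro n h1 h2
      rw [hS1, Finset.mem_image] at h1
      rw [hS2, Finset.mem_image] at h2
      obtain ⟨m, -, rfl⟩ := h1
      obtain ⟨m', -, h3⟩ := h2
      omega
    rw [Finset.sum_union hdis, hS1, hS2, Finset.sum_image, Finset.sum_image,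
      ← Finset.sum_add_distrib]
    · unfold sinP
      push_cast
      refine Finset.sum_congr rfl fun k _ => ?_
      have e1 : Int.sign ((k : ℤ) + 1) = 1 := Int.sign_eq_one_of_pos (by positivity)
      have e2 : Int.sign (-((k : ℤ) + 1)) = -1 := by rw [Int.sign_neg, e1]
      have e3 : ((k : ℤ) + 1).natAbs - 1 = k := by omega
      have e4 : (-((k : ℤ) + 1)).natAbs - 1 = k := by omega
      simp only [hτ, e1, e2, e3, e4]
      rw [Complex.sin]
      push_cast
      have e5 : -(((k : ℂ) + 1) * θ * Complex.I) = -(((k : ℂ) + 1) * θ) * Complex.I := by ring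
      have e6 : -(-((k : ℂ) + 1) * θ * Complex.I) = (((k : ℂ) + 1) * θ) * Complex.I := by ring
      have e7 : -((-1 + -(k : ℂ)) * θ * Complex.I) = (((k : ℂ) + 1) * θ) * Complex.I := by ring
      try rw [e6]
      try rw [e7]
      rw [e5]
      ring
    · intro i _ j _ h
      simpa using h
    · intro i _ j _ h
      simpa using h

theorem sin_id1 (N : ℕ) (θ : ℝ) :
    (2 - 2 * Real.cos θ) * ∑ k ∈ Finset.range N, Real.sin (((k : ℝ) + 1) * θ)
      = Real.sin θ - Real.sin (((N : ℝ) + 1) * θ) + Real.sin (N * θ) := by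
  induction N with
  | zero => simp
  | succ N ih =>
    rw [Finset.sum_range_succ, mul_add, ih]
    have h1 : Real.sin (((N + 1 : ℕ) : ℝ) * θ + θ) + Real.sin (((N + 1 : ℕ) : ℝ) * θ - θ)
        = 2 * Real.sin (((N + 1 : ℕ) : ℝ) * θ) * Real.cos θ := by
      rw [Real.sin_add, Real.sin_sub]; ring
    have h2 : ((N + 1 : ℕ) : ℝ) * θ + θ = (((N + 1 : ℕ) : ℝ) + 1) * θ := by ring
    have h3 : ((N + 1 : ℕ) : ℝ) * θ - θ = N * θ := by push_cast; ring
    rw [h2, h3] at h1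
    have h4 : ((N : ℝ) + 1) * θ = ((N + 1 : ℕ) : ℝ) * θ := by push_cast; ring
    rw [h4]
    linarith

theorem sin_id2 (N : ℕ) (θ : ℝ) :
    (2 - 2 * Real.cos θ) * ∑ k ∈ Finset.range N, ((k : ℝ) + 1) * Real.sin (((k : ℝ) + 1) * θ)
      = -((N : ℝ) + 1) * (Real.sin (((N : ℝ) + 1) * θ) - Real.sin (N * θ))
        + Real.sin (((N : ℝ) + 1) * θ) := by
  induction N with
  | zero => simp
  | succ N ih =>
    rw [Finset.sum_range_succ, mul_add, ih]
    have h1 : Real.sin (((N + 1 : ℕ) : ℝ) * θ + θ) + Real.sin (((N + 1 : ℕ) : ℝ) * θ - θ)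
        = 2 * Real.sin (((N + 1 : ℕ) : ℝ) * θ) * Real.cos θ := by
      rw [Real.sin_add, Real.sin_sub]; ring
    have h2 : ((N + 1 : ℕ) : ℝ) * θ + θ = (((N + 1 : ℕ) : ℝ) + 1) * θ := by ring
    have h3 : ((N + 1 : ℕ) : ℝ) * θ - θ = N * θ := by push_cast; ring
    rw [h2, h3] at h1
    have h4 : ((N : ℝ) + 1) * θ = ((N + 1 : ℕ) : ℝ) * θ := by push_cast; ring
    rw [h4]
    have h5 : ((N + 1 : ℕ) : ℝ) = (N : ℝ) + 1 := by push_cast; ring
    have h6 : Real.sin ((((N + 1 : ℕ) : ℝ) + 1) * θ)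
        = 2 * Real.sin (((N + 1 : ℕ) : ℝ) * θ) * Real.cos θ - Real.sin (N * θ) := by linarith
    rw [h6, h5]
    ring

end H34.Toep
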