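import Pool.Agent.H34.Toep.Basic

namespace H34.Toep

open MeasureTheory

/-- The stretched coefficient sequence. -/
noncomputable def st (m : ℕ) (a : ℤ → ℂ) (n : ℤ) : ℂ := if (m : ℤ) ∣ n then a (n / m) else 0

theorem st_herm {m : ℕ} {a : ℤ → ℂ} (ha : ∀ n, a (-n) = (starRingEnd ℂ) (a n)) (n : ℤ) :
    st m a (-n) = (starRingEnd ℂ) (st m a n) := by
  unfold st
  by_cases h : (m : ℤ) ∣ n
  · have h' : (m : ℤ) ∣ -n := (dvd_neg).2 h
    rw [if_pos h, if_pos h', ← ha, Int.neg_ediv_of_dvd h]
  · have h' : ¬ (m : ℤ) ∣ -n := fun h2 => h ((dvd_neg).1 h2)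
    rw [if_neg h, if_neg h', map_zero]

theorem opn_stretch {N M m : ℕ} (hm : 0 < m) (h : M + 1 ≤ m * (N + 1)) (a : ℤ → ℂ) :
    opn (toep M (st m a)) ≤ opn (toep N a) := by
  classical
  refine opn_le _ (opn_nonneg _) fun v => ?_
  have hlt : ∀ k : Fin (M + 1), (k : ℕ) / m < N + 1 := by
    intro k
    rw [Nat.div_lt_iff_lt_mul hm]
    have := k.isLt
    rw [mul_comm]
    omega
  set e : Fin (M + 1) → Fin (N + 1) × Fin m := fun k =>
    (⟨(k : ℕ) / m, hlt k⟩, ⟨(k : ℕ) % m, Nat.mod_lt _ hm⟩) with he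
  have heinj : Function.Injective e := by
    intro k k' hk
    have h1 : (k : ℕ) / m = (k' : ℕ) / m := by
      have := congrArg (fun p => (p.1 : ℕ)) hk
      exact this
    have h2 : (k : ℕ) % m = (k' : ℕ) % m := by
      have := congrArg (fun p => (p.2 : ℕ)) hk
      exact this
    ext
    rw [← Nat.div_add_mod (k : ℕ) m, ← Nat.div_add_mod (k' : ℕ) m, h1, h2]
  set w : Fin (N + 1) × Fin m → ℂ := Function.extend e v 0 with hw
  have hwe : ∀ k, w (e k) = v k := fun k => heinj.extend_apply _ _ k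
  have hwn : ∀ p, p ∉ Set.range e → w p = 0 := by
    intro p hp
    rw [hw, Function.extend_apply' _ _ _ (fun ⟨k, hk⟩ => hp ⟨k, hk⟩)]
    rfl
  -- the image vector
  have key : ∀ j : Fin (M + 1), ∑ k, toep M (st m a) j k * v k
      = ∑ i' : Fin (N + 1), toep N a (e j).1 i' * w (i', (e j).2) := by
    intro j
    have h1 : ∑ k, toep M (st m a) j k * v k
        = ∑ p : Fin (N + 1) × Fin m,
          (if p.2 = (e j).2 then toep N a (e j).1 p.1 * w p else 0) := by
      refine Fintype.sum_of_injective e heinj _ _ ?_ ?_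
      · intro p hp
        rw [hwn p hp, mul_zero, ite_self]
      · intro k
        rw [hwe]
        simp only [toep, Matrix.of_apply, st, he, Fin.mk.injEq]
        by_cases h2 : (k : ℕ) % m = (j : ℕ) % m
        · rw [if_pos h2]
          have h3 : ((j : ℕ) : ℤ) - ((k : ℕ) : ℤ)
              = m * ((((j : ℕ) / m : ℕ) : ℤ) - (((k : ℕ) / m : ℕ) : ℤ)) := by
            have e1 := Nat.div_add_mod (k : ℕ) m
            have e2 := Nat.div_add_mod (j : ℕ) m
            have e3 : ((k : ℕ) : ℤ) = m * (((k : ℕ) / m : ℕ) : ℤ) + (((k : ℕ) % m : ℕ) : ℤ) := by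
              exact_mod_cast e1.symm
            have e4 : ((j : ℕ) : ℤ) = m * (((j : ℕ) / m : ℕ) : ℤ) + (((j : ℕ) % m : ℕ) : ℤ) := by
              exact_mod_cast e2.symm
            rw [e3, e4, h2]
            push_cast
            ring_nf
          rw [if_pos (by rw [h3]; exact dvd_mul_right _ _), h3,
            Int.mul_ediv_cancel_left _ (by exact_mod_cast hm.ne')]
        · rw [if_neg h2, if_neg, zero_mul]
          intro h3
          apply h2
          have h4 : ((k : ℕ) : ℤ) % m = ((j : ℕ) : ℤ) % m := Int.modEq_iff_dvd.2 h3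
          exact_mod_cast h4
    rw [h1, Fintype.sum_prod_type]
    refine Finset.sum_congr rfl fun i' _ => ?_
    simp
  have h2 : ∑ k, ‖v k‖ ^ 2 = ∑ p, ‖w p‖ ^ 2 := by
    refine Fintype.sum_of_injective e heinj _ _ ?_ ?_
    · intro p hp
      rw [hwn p hp]; simp
    · intro k
      rw [hwe]
  rw [h2]
  set G : Fin (N + 1) × Fin m → ℝ := fun p => ‖∑ i' : Fin (N + 1), toep N a p.1 i' * w (i', p.2)‖ ^ 2
    with hG
  have h3 : ∑ j, ‖∑ k, toep M (st m a) j k * v k‖ ^ 2 = ∑ j, G (e j) := by
    refine Finset.sum_congr rfl fun j _ => ?_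
    rw [key j]
  rw [h3]
  have h4 : ∑ j, G (e j) ≤ ∑ p, G p := by
    rw [← Finset.sum_image (f := G) (s := Finset.univ) (g := e) fun x _ y _ hxy => heinj hxy]
    exact Finset.sum_le_sum_of_subset_of_nonneg (Finset.subset_univ _) fun p _ _ => by
      simp only [hG]; positivity
  refine h4.trans ?_
  rw [Fintype.sum_prod_type_right, Fintype.sum_prod_type_right, Finset.mul_sum]
  exact Finset.sum_le_sum fun r _ => opn_ge (toep N a) fun i => w (i, r)

/-- An inducing function can be taken bounded everywhere. -/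
theorem induces_everywhere {N : ℕ} {a : ℤ → ℂ} {f : ℝ → ℂ} {r : ℝ} (hr : 0 ≤ r)
    (h : Induces N a f r) : ∃ g : ℝ → ℂ, Measurable g ∧ (∀ θ, ‖g θ‖ ≤ r) ∧
      ∀ n : ℤ, |n| ≤ N → coef g n = a n := by
  classical
  obtain ⟨h1, h2, h3⟩ := h
  have hS : MeasurableSet {θ | ‖f θ‖ ≤ r} := measurableSet_le h1.norm measurable_const
  refine ⟨Set.indicator {θ | ‖f θ‖ ≤ r} f, h1.indicator hS, ?_, ?_⟩
  · intro θ
    by_cases h : θ ∈ {θ | ‖f θ‖ ≤ r}
    · rw [Set.indicator_of_mem h]; exact h
    · rw [Set.indicator_of_notMem h, norm_zero]; exact hr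
  · intro n hn
    rw [← h3 n hn]
    unfold coef
    congr 1
    have hpi : (0:ℝ) ≤ 2 * Real.pi := by positivity
    rw [intervalIntegral.integral_of_le hpi, intervalIntegral.integral_of_le hpi]
    refine integral_congr_ae ?_
    filter_upwards [h2] with θ hθ
    rw [Set.indicator_of_mem (show θ ∈ {θ | ‖f θ‖ ≤ r} from hθ)]

theorem cA_stretch {N M m : ℕ} (hm : 0 < m) (h : m * N ≤ M) (a : ℤ → ℂ) :
    cA N a ≤ cA M (st m a) := by
  refine le_csInf (cA_nonempty M _) ?_
  rintro r ⟨hr, f, hf⟩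
  obtain ⟨g, hg1, hg2, hg3⟩ := induces_everywhere hr hf
  have hbb : BddBelow {r : ℝ | 0 ≤ r ∧ ∃ f : ℝ → ℂ, Induces N a f r} := ⟨0, fun r hr => hr.1⟩
  have hmR : (0:ℝ) < m := by exact_mod_cast hm
  refine csInf_le hbb ⟨hr, fun θ => (1 / (m : ℂ)) * ∑ k ∈ Finset.range m,
    g (θ / m + 2 * Real.pi * k / m), ?_, ?_, ?_⟩
  · refine Measurable.const_mul ?_ _
    refine Finset.measurable_fun_sum _ fun k _ => ?_
    exact hg1.comp (by fun_prop)
  · refine Filter.Eventually.of_forall fun θ => ?_
    rw [norm_mul]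
    have h1 : ‖∑ k ∈ Finset.range m, g (θ / m + 2 * Real.pi * k / m)‖ ≤ m * r := by
      refine (norm_sum_le _ _).trans ?_
      calc ∑ k ∈ Finset.range m, ‖g (θ / m + 2 * Real.pi * k / m)‖
          ≤ ∑ _k ∈ Finset.range m, r := Finset.sum_le_sum fun k _ => hg2 _
        _ = m * r := by simp
    have h2 : ‖(1 / (m : ℂ))‖ = 1 / m := by simp
    rw [h2]
    calc 1 / (m : ℝ) * ‖∑ k ∈ Finset.range m, g (θ / m + 2 * Real.pi * k / m)‖
        ≤ 1 / m * (m * r) := mul_le_mul_of_nonneg_left h1 (by positivity)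
      _ = r := by field_simp
  · intro n hn
    have hn' : |(m : ℤ) * n| ≤ M := by
      rw [abs_mul, abs_of_nonneg (by positivity : (0:ℤ) ≤ m)]
      calc (m : ℤ) * |n| ≤ m * N := mul_le_mul_of_nonneg_left hn (by positivity)
        _ ≤ M := by exact_mod_cast h
    have h1 := hg3 _ hn'
    have h2 : st m a ((m : ℤ) * n) = a n := by
      unfold st
      rw [if_pos (dvd_mul_right _ _), Int.mul_ediv_cancel_left _ (by exact_mod_cast hm.ne')]
    rw [h2] at h1
    rw [← h1]
    unfold coef
    congr 1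
    set H : ℝ → ℂ := fun φ => g φ * Complex.exp (-(((m : ℤ) * n : ℤ) * φ * Complex.I)) with hH
    have hHm : Measurable H := hg1.mul (by fun_prop)
    have hHb : ∀ φ, ‖H φ‖ ≤ r := by
      intro φ
      simp only [hH]
      rw [norm_mul]
      have e1 : -((((m : ℤ) * n : ℤ) : ℂ) * φ * Complex.I)
          = ((-(((m : ℤ) * n : ℤ) * φ) : ℝ) : ℂ) * Complex.I := by
        push_cast; ring
      rw [e1, Complex.norm_exp_ofReal_mul_I, mul_one]
      exact hg2 φ
    have hHi : ∀ s t : ℝ, IntervalIntegrable H volume s t := by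
      intro s t
      refine IntervalIntegrable.mono_fun' (g := fun _ => r) (by simp) hHm.aestronglyMeasurable ?_
      exact Filter.Eventually.of_forall fun φ => hHb φ
    have h3 : ∀ θ : ℝ, ((1 / (m : ℂ)) * ∑ k ∈ Finset.range m, g (θ / m + 2 * Real.pi * k / m)) *
        Complex.exp (-(n * θ * Complex.I))
        = (1 / (m : ℂ)) * ∑ k ∈ Finset.range m, H (θ / m + 2 * Real.pi * k / m) := by
      intro θ
      rw [mul_assoc, Finset.sum_mul]
      congr 1
      refine Finset.sum_congr rfl fun k _ => ?_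
      simp only [hH]
      congr 1
      have e1 : -((((m : ℤ) * n : ℤ) : ℂ) * ((θ / m + 2 * Real.pi * k / m : ℝ) : ℂ) * Complex.I)
          = -(n * θ * Complex.I) + ((-(n * k) : ℤ) : ℂ) * (2 * Real.pi * Complex.I) := by
        have hmC : (m : ℂ) ≠ 0 := by exact_mod_cast hm.ne'
        push_cast
        field_simp
        ring
      rw [e1, Complex.exp_add, Complex.exp_int_mul_two_pi_mul_I, mul_one]
    simp only [h3]
    rw [intervalIntegral.integral_const_mul, intervalIntegral.integral_finsetSum]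
    · have h4 : ∀ k ∈ Finset.range m,
          ∫ θ in (0:ℝ)..(2 * Real.pi), H (θ / m + 2 * Real.pi * k / m)
          = (m : ℝ) • ∫ φ in (2 * Real.pi * k / m)..(2 * Real.pi * ((k + 1 : ℕ) : ℝ) / m), H φ := by
        intro k _
        rw [intervalIntegral.integral_comp_div_add H hmR.ne']
        congr 2
        · simp
        · push_cast
          ring
      rw [Finset.sum_congr rfl h4, ← Finset.smul_sum]
      have h5 := intervalIntegral.sum_integral_adjacent_intervals (f := H) (μ := volume)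
        (a := fun k : ℕ => 2 * Real.pi * (k : ℝ) / m) (n := m) fun k _ => hHi _ _
      rw [h5]
      have e1 : 2 * Real.pi * ((0 : ℕ) : ℝ) / m = 0 := by simp
      have e2 : 2 * Real.pi * (m : ℝ) / m = 2 * Real.pi := by field_simp
      rw [e1, e2, Complex.real_smul]
      have hmC : (m : ℂ) ≠ 0 := by exact_mod_cast hm.ne'
      push_cast
      field_simp
    · intro k _
      refine IntervalIntegrable.mono_fun' (g := fun _ => r) (by simp)
        (hHm.comp (by fun_prop)).aestronglyMeasurable ?_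
      exact Filter.Eventually.of_forall fun φ => hHb _

theorem cN_nonempty (N : ℕ) : {x : ℝ | ∃ a : ℤ → ℂ, (∀ n, a (-n) = (starRingEnd ℂ) (a n)) ∧
    toep N a ≠ 0 ∧ x = cA N a / opn (toep N a)}.Nonempty := by
  refine ⟨_, fun n => if n = 0 then 1 else 0, ?_, ?_, rfl⟩
  · intro n
    by_cases h : n = 0
    · subst h; simp
    · have h' : -n ≠ 0 := neg_ne_zero.2 h
      simp [h]
  · intro h
    have := congrFun (congrFun h 0) 0
    simp [toep] at this

/-- Monotonicity along multiples. -/
theorem cN_mono_mult {N M m : ℕ} (h1 : m * N ≤ M) (h2 : M < m * (N + 1)) : cN N ≤ cN M := by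
  have hm : 0 < m := by
    rcases Nat.eq_zero_or_pos m with h | h
    · subst h; omega
    · exact h
  refine csSup_le (cN_nonempty N) ?_
  rintro x ⟨a, ha, h0, rfl⟩
  have h3 : toep M (st m a) ≠ 0 := by
    intro h4
    apply h0
    ext j k
    have hjk : |((j : ℕ) : ℤ) - ((k : ℕ) : ℤ)| ≤ N := by
      have := j.isLt; have := k.isLt
      rw [abs_le]; constructor <;> omega
    have key : ∀ n : ℤ, |n| ≤ N → a n = 0 := by
      have hst : ∀ n : ℤ, 0 ≤ n → n ≤ N → a n = 0 := by
        intro n hn0 hnN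
        obtain ⟨i, rfl⟩ := Int.eq_ofNat_of_zero_le hn0
        have hi : i ≤ N := by exact_mod_cast hnN
        have hmi : m * i < M + 1 := by
          have := Nat.mul_le_mul_left m hi
          omega
        have h5 := congrFun (congrFun h4 ⟨m * i, hmi⟩) 0
        simp only [toep, Matrix.of_apply, Matrix.zero_apply, st] at h5
        have h6 : (((⟨m * i, hmi⟩ : Fin (M + 1)) : ℕ) : ℤ) - (((0 : Fin (M + 1)) : ℕ) : ℤ)
            = (m : ℤ) * i := by
          simp
        rw [h6, if_pos (dvd_mul_right _ _),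
          Int.mul_ediv_cancel_left _ (by exact_mod_cast hm.ne')] at h5
        exact h5
      intro n hn
      rcases le_total 0 n with h | h
      · exact hst n h (abs_le.1 hn).2
      · have h5 := hst (-n) (by omega) (by have := (abs_le.1 hn).1; omega)
        have h6 := ha n
        rw [h5] at h6
        exact (map_eq_zero _).1 h6.symm
    exact key _ hjk
  refine le_trans ?_ (ratio_le_cN (st_herm ha) h3)
  exact div_le_div₀ (cA_nonneg _ _) (cA_stretch hm h1 a) (opn_pos h3) (opn_stretch hm h2 a)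

/-- `c_M ≥ c_N` for all `M ≥ N²`. -/
theorem cN_le_of_sq_le {N M : ℕ} (h : N ^ 2 ≤ M) : cN N ≤ cN M := by
  rcases Nat.eq_zero_or_pos N with h0 | h0
  · subst h0
    exact cN_mono_mult (m := M + 1) (by simp) (by omega)
  · have h1 := Nat.div_add_mod M N
    have h2 := Nat.mod_lt M h0
    have h3 : N ≤ M / N := by
      rw [Nat.le_div_iff_mul_le h0]
      nlinarith
    refine cN_mono_mult (m := M / N) ?_ ?_
    · rw [mul_comm]; omega
    · rw [mul_add, mul_comm (M / N) N]
      omega

end H34.Toep
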