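import Pool.Agent.H34.Toep.Dottie

namespace H34.Toep

open MeasureTheory intervalIntegral

/-- The comparison function. -/
noncomputable def gg (a x : ℝ) : ℝ := |a - Real.cos x| / x

/-- The integral of `|a - cos x|` over a period. -/
noncomputable def Mp (a : ℝ) : ℝ := ∫ x in (0:ℝ)..(2 * Real.pi), |a - Real.cos x|

theorem gg_int (a : ℝ) {s t : ℝ} (hs : 0 < s) (ht : s ≤ t) :
    IntervalIntegrable (gg a) volume s t := by
  apply ContinuousOn.intervalIntegrable
  rw [Set.uIcc_of_le ht]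
  unfold gg
  refine ContinuousOn.div (by fun_prop) continuousOn_id fun x hx => ?_
  exact (hs.trans_le hx.1).ne'

theorem gg_nonneg (a : ℝ) {x : ℝ} (hx : 0 < x) : 0 ≤ gg a x := by
  unfold gg; positivity

theorem abs_le_two {a : ℝ} (h0 : 0 ≤ a) (h1 : a ≤ 1) (x : ℝ) : |a - Real.cos x| ≤ 2 := by
  rw [abs_le]
  constructor <;> linarith [Real.cos_le_one x, Real.neg_one_le_cos x]

theorem Mp_nonneg (a : ℝ) : 0 ≤ Mp a := by
  unfold Mp
  exact integral_nonneg (by positivity) fun x _ => abs_nonneg _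

theorem period_int (a : ℝ) (K : ℕ) :
    ∫ x in (2 * Real.pi * ((K : ℝ) + 1))..(2 * Real.pi * ((K : ℝ) + 1) + 2 * Real.pi), gg a x
      ≤ Mp a / (2 * Real.pi) * (1 / ((K : ℝ) + 1)) := by
  have hpi := Real.pi_pos
  have hK : (0:ℝ) < (K : ℝ) + 1 := by positivity
  set s : ℝ := 2 * Real.pi * ((K : ℝ) + 1) with hs
  have hs0 : 0 < s := by positivity
  have h1 : ∫ x in s..(s + 2 * Real.pi), gg a x
      ≤ ∫ x in s..(s + 2 * Real.pi), (1 / s) * |a - Real.cos x| := by
    refine integral_mono_on (by linarith) (gg_int a hs0 (by linarith)) ?_ ?_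
    · apply Continuous.intervalIntegrable; fun_prop
    · intro x hx
      unfold gg
      rw [div_eq_mul_one_div, mul_comm]
      exact mul_le_mul_of_nonneg_right (one_div_le_one_div_of_le hs0 hx.1) (abs_nonneg _)
  have hper : Function.Periodic (fun x => |a - Real.cos x|) (2 * Real.pi) := by
    intro x
    simp only [Real.cos_add_two_pi]
  have h2 := hper.intervalIntegral_add_eq s 0
  rw [intervalIntegral.integral_const_mul, h2, zero_add] at h1
  refine h1.trans (le_of_eq ?_)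
  show 1 / s * Mp a = _
  rw [hs]
  field_simp

theorem gg_sum {a : ℝ} (h0 : 0 ≤ a) (h1 : a ≤ 1) (K : ℕ) :
    ∫ x in (1:ℝ)..(2 * Real.pi * ((K : ℝ) + 1)), gg a x
      ≤ 4 * Real.pi + Mp a / (2 * Real.pi) * ∑ k ∈ Finset.range K, 1 / ((k : ℝ) + 1) := by
  have hpi := Real.pi_gt_three
  induction K with
  | zero =>
    have h2 : ∫ x in (1:ℝ)..(2 * Real.pi * (((0:ℕ) : ℝ) + 1)), gg a x
        ≤ ∫ x in (1:ℝ)..(2 * Real.pi * (((0:ℕ) : ℝ) + 1)), (2:ℝ) := by
      refine integral_mono_on (by push_cast; linarith) (gg_int a one_pos (by push_cast; linarith))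
        (by simp) ?_
      intro x hx
      unfold gg
      rw [div_le_iff₀ (by linarith [hx.1])]
      have := abs_le_two h0 h1 x
      have h3 := hx.1
      nlinarith
    rw [intervalIntegral.integral_const, smul_eq_mul] at h2
    simp only [Finset.range_zero, Finset.sum_empty, mul_zero, add_zero]
    push_cast at h2 ⊢
    linarith
  | succ K ih =>
    have hK : (0:ℝ) ≤ K := by positivity
    have e1 : 2 * Real.pi * (((K + 1 : ℕ) : ℝ) + 1) = 2 * Real.pi * ((K : ℝ) + 1) + 2 * Real.pi := by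
      push_cast; ring
    have e2 : (1:ℝ) ≤ 2 * Real.pi * ((K : ℝ) + 1) := by nlinarith
    rw [e1, ← integral_add_adjacent_intervals (gg_int a one_pos e2)
      (gg_int a (by linarith) (by linarith)), Finset.sum_range_succ,
      mul_add (Mp a / (2 * Real.pi))]
    have := period_int a K
    linarith

theorem cc_bound {a : ℝ} (h0 : 0 ≤ a) (h1 : a ≤ 1) (N : ℕ) (θ : ℝ) :
    |sinP N (cc a N) θ| ≤ N := by
  unfold sinP
  refine (Finset.abs_sum_le_sum_abs _ _).trans ?_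
  have : ∑ k ∈ Finset.range N, |cc a N k * Real.sin (((k : ℝ) + 1) * θ)|
      ≤ ∑ _k ∈ Finset.range N, (1:ℝ) := by
    refine Finset.sum_le_sum fun k hk => ?_
    rw [abs_mul]
    have hk' : (k : ℝ) + 1 ≤ N := by exact_mod_cast Finset.mem_range.1 hk
    have hN : (0:ℝ) < (N : ℝ) + 1 := by positivity
    have h2 : 0 ≤ cc a N k := by
      unfold cc
      have : 0 ≤ (1 - a) / ((N : ℝ) + 1) * ((k : ℝ) + 1) :=
        mul_nonneg (div_nonneg (by linarith) hN.le) (by positivity)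
      linarith
    have h3 : cc a N k ≤ 1 := by
      unfold cc
      have : (1 - a) / ((N : ℝ) + 1) * ((k : ℝ) + 1) ≤ 1 - a := by
        rw [div_mul_eq_mul_div, div_le_iff₀ hN]
        exact mul_le_mul_of_nonneg_left (by linarith) (by linarith)
      linarith
    rw [abs_of_nonneg h2]
    calc cc a N k * |Real.sin (((k : ℝ) + 1) * θ)| ≤ 1 * 1 :=
          mul_le_mul h3 (Real.abs_sin_le_one _) (abs_nonneg _) zero_le_one
      _ = 1 := one_mul 1
  refine this.trans (le_of_eq ?_)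
  simp

theorem mul_cos_le_sin {y : ℝ} (h0 : 0 ≤ y) (h1 : y ≤ Real.pi / 2) : y * Real.cos y ≤ Real.sin y := by
  rcases h0.eq_or_lt with h | h
  · rw [← h]; simp
  rcases h1.eq_or_lt with h2 | h2
  · rw [h2]; simp
  · have h3 := Real.lt_tan h h2
    have h4 : 0 < Real.cos y := Real.cos_pos_of_mem_Ioo ⟨by linarith, h2⟩
    rw [Real.tan_eq_sin_div_cos, lt_div_iff₀ h4] at h3
    exact h3.le

/-- Pointwise upper bound. -/
theorem point_up {a : ℝ} (h0 : 0 ≤ a) (h1 : a ≤ 1) (N : ℕ) {θ : ℝ} (hθ : 0 < θ)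
    (hθ' : θ ≤ Real.pi) :
    |sinP N (cc a N) θ| ≤ ((N : ℝ) + 1) * gg a (((N : ℝ) + 1) * θ) + 3 / ((N : ℝ) + 1) * (1 / θ ^ 2)
      + 1 / 2 := by
  have hN : (0:ℝ) < (N : ℝ) + 1 := by positivity
  have hpi := Real.pi_pos
  set y : ℝ := θ / 2 with hy
  have hy0 : 0 < y := by positivity
  have hy1 : y ≤ Real.pi / 2 := by rw [hy]; linarith
  have e : θ = 2 * y := by rw [hy]; ring
  have hs : 0 < Real.sin y := Real.sin_pos_of_pos_of_lt_pi hy0 (by linarith)
  have hcos : 2 - 2 * Real.cos θ = 4 * Real.sin y ^ 2 := by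
    rw [e, Real.cos_two_mul]
    have := Real.sin_sq_add_cos_sq y
    linarith
  have hsin : Real.sin θ = 2 * Real.sin y * Real.cos y := by rw [e, Real.sin_two_mul]
  have hc : 0 ≤ Real.cos y := Real.cos_nonneg_of_neg_pi_div_two_le_of_le (by linarith) hy1
  have hid := cc_id a N θ
  rw [hcos] at hid
  have hD : 0 < 4 * Real.sin y ^ 2 := by positivity
  have hθpos : 0 < (N + 1) * θ := by positivity
  have h2 : 4 * Real.sin y ^ 2 * |sinP N (cc a N) θ|
      ≤ Real.sin θ * |a - Real.cos (((N : ℝ) + 1) * θ)| + ((1 - a) / ((N : ℝ) + 1) + (1 - Real.cos θ)) := by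
    rw [← abs_of_pos hD, ← abs_mul, hid]
    refine (abs_add_le _ _).trans ?_
    have h3 : 0 ≤ Real.sin θ := by rw [hsin]; positivity
    rw [abs_mul, abs_mul, abs_of_nonneg h3]
    have h4 : |Real.sin (((N : ℝ) + 1) * θ)| ≤ 1 := Real.abs_sin_le_one _
    have h5 : |(1 - a) / ((N : ℝ) + 1) - (1 - Real.cos θ)|
        ≤ (1 - a) / ((N : ℝ) + 1) + (1 - Real.cos θ) := by
      have h6 : 0 ≤ (1 - a) / ((N : ℝ) + 1) := div_nonneg (by linarith) hN.le
      have h7 : 0 ≤ 1 - Real.cos θ := by linarith [Real.cos_le_one θ]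
      rw [abs_le]
      constructor <;> linarith
    have h8 : |Real.sin (((N : ℝ) + 1) * θ)| * |(1 - a) / ((N : ℝ) + 1) - (1 - Real.cos θ)|
        ≤ 1 * ((1 - a) / ((N : ℝ) + 1) + (1 - Real.cos θ)) :=
      mul_le_mul h4 h5 (abs_nonneg _) zero_le_one
    linarith
  have h3 : 1 - Real.cos θ = (4 * Real.sin y ^ 2) * (1 / 2) := by linarith
  have h4 : Real.sin θ ≤ (4 * Real.sin y ^ 2) * (1 / θ) := by
    rw [hsin, e, mul_one_div, le_div_iff₀ (by positivity)]
    have := mul_cos_le_sin hy0.le hy1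
    nlinarith [mul_le_mul_of_nonneg_left this hs.le]
  have h5 : 1 ≤ (4 * Real.sin y ^ 2) * (3 * (1 / θ ^ 2)) := by
    have h6 := Real.mul_le_sin hy0.le hy1
    have h7 : θ / Real.pi ≤ Real.sin y := by
      refine le_trans (le_of_eq ?_) h6
      rw [hy]; field_simp
    have h8 : (θ / Real.pi) ^ 2 ≤ Real.sin y ^ 2 := pow_le_pow_left₀ (by positivity) h7 2
    have h9 : Real.pi ^ 2 ≤ 12 := by
      have := Real.pi_lt_d2
      nlinarith
    have h10 : 4 * (θ / Real.pi) ^ 2 * (3 * (1 / θ ^ 2)) = 12 / Real.pi ^ 2 := by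
      field_simp
      norm_num
    have h11 : 1 ≤ 12 / Real.pi ^ 2 := by
      rw [one_le_div (by positivity)]; exact h9
    have h12 : 0 ≤ 3 * (1 / θ ^ 2) := by positivity
    nlinarith [mul_le_mul_of_nonneg_right h8 h12]
  have h6 : (1 - a) / ((N : ℝ) + 1) ≤ (4 * Real.sin y ^ 2) * (3 / ((N : ℝ) + 1) * (1 / θ ^ 2)) := by
    have h7 : (1 - a) / ((N : ℝ) + 1) ≤ 1 / ((N : ℝ) + 1) :=
      div_le_div_of_nonneg_right (by linarith) hN.le
    refine h7.trans ?_
    have h8 : (4 * Real.sin y ^ 2) * (3 / ((N : ℝ) + 1) * (1 / θ ^ 2))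
        = (1 / ((N : ℝ) + 1)) * ((4 * Real.sin y ^ 2) * (3 * (1 / θ ^ 2))) := by ring
    rw [h8]
    have h9 : 0 ≤ 1 / ((N : ℝ) + 1) := by positivity
    nlinarith [mul_le_mul_of_nonneg_left h5 h9]
  have h7 : ((N : ℝ) + 1) * gg a (((N : ℝ) + 1) * θ) = |a - Real.cos (((N : ℝ) + 1) * θ)| * (1 / θ) := by
    unfold gg
    field_simp
  rw [h7]
  have h8 : 4 * Real.sin y ^ 2 * |sinP N (cc a N) θ| ≤ 4 * Real.sin y ^ 2 *
      (|a - Real.cos (((N : ℝ) + 1) * θ)| * (1 / θ) + 3 / ((N : ℝ) + 1) * (1 / θ ^ 2) + 1 / 2) := by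
    have h9 : Real.sin θ * |a - Real.cos (((N : ℝ) + 1) * θ)|
        ≤ (4 * Real.sin y ^ 2) * (1 / θ) * |a - Real.cos (((N : ℝ) + 1) * θ)| :=
      mul_le_mul_of_nonneg_right h4 (abs_nonneg _)
    nlinarith
  exact le_of_mul_le_mul_left h8 hD

end H34.Toep
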